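import Pool.Agent.T9h97.Fork.Fn

/-!
# Monotone advice and antitone oracles
-/

set_option autoImplicit false

namespace Pool.Agent.T9h97.Fork

open Finset Pool.Agent.H540R2
open scoped Classical

variable {n : ℕ}

lemma isNot_false {D : Circuit n} (hm : D.Monotone) {i : ℕ} (hi : i < D.size) :
    ¬ (D.gate i).isNot = true := by
  intro h
  cases hg : D.gate i with
  | and a b => rw [hg] at h; exact absurd h (by simp [Gate.isNot])
  | or a b => rw [hg] at h; exact absurd h (by simp [Gate.isNot])
  | not a => exact hm i hi a hg

lemma mono_MF {D : Circuit n} (hm : D.Monotone) : MF D.depth D.eval := by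
  have h1 : D.eval = fun x => D.out.eval x (fz D (fun _ => false) x) := by
    funext x
    refine (node_fz_eq D.out_lt fun j hj hn _ _ => ?_).symm
    exact absurd hn (isNot_false hm hj)
  rw [h1]
  exact node_fz_MF D _ D.out_lt

lemma MF.any_ex {E ι : Type} {d : ℕ} (F : ι → (E → Bool) → Bool) (a : ℕ) (s : Finset ι)
    (hs : s.card ≤ 2 ^ a) (hF : ∀ i ∈ s, MF d (F i)) :
    ∃ h' : (E → Bool) → Bool, MF (d + a) h' ∧ ∀ y, h' y = true ↔ ∃ i ∈ s, F i y = true :=
  ⟨_, MF.any F a s hs hF, fun _ => decide_eq_true_iff⟩

/-- Circuits with monotone advice have the separation property. -/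
theorem sep_advice {R d a : ℕ} (h : Fin R → Circuit n) (D : (Fin R → Bool) → Circuit n)
    (hh : ∀ i, (h i).Monotone ∧ (h i).depth ≤ d) (hD : ∀ v, (D v).Monotone ∧ (D v).depth ≤ d)
    (hR : R ≤ 2 ^ a) (E : Type) :
    Sep (fun x => (D fun i => (h i).eval x).eval x)
      (fun x => (univ.filter fun i : Fin R => (h i).eval x = true).card) (d + a + 1) E := by
  intro g x0 N P hg hx0 _ hN hP
  set ν : Fin R → Bool := fun i => (h i).eval x0 with hν
  have hmon : ∀ z i, ν i = true → (h i).eval (g z) = true := fun z i =>
    (mono_MF (hh i).1).le (hx0 z)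
  obtain ⟨h', hMF, hspec⟩ : ∃ h' : (E → Bool) → Bool, MF (d + a) h' ∧
      ∀ y, h' y = true ↔ ∃ i, ν i = false ∧ (h i).eval (g y) = true := by
    obtain ⟨h', h1, h2⟩ := MF.any_ex (fun (i : Fin R) (y : E → Bool) => (h i).eval (g y)) a
      (univ.filter (fun i => ν i = false)) ((card_le_univ _).trans (by simpa using hR))
      (fun i _ => ((mono_MF (hh i).1).subst g hg).mono (hh i).2)
    refine ⟨h', h1, fun y => (h2 y).trans ?_⟩
    constructor
    · rintro ⟨i, hi, h2⟩
      exact ⟨i, (mem_filter.1 hi).2, h2⟩
    · rintro ⟨i, hi, h2⟩
      exact ⟨i, mem_filter.2 ⟨mem_univ _, hi⟩, h2⟩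
  refine ⟨fun y => (D ν).eval (g y) || h' y, ?_, ?_, ?_⟩
  · exact MF.or (((mono_MF (hD ν).1).subst g hg).mono ((hD ν).2.trans (Nat.le_add_right _ _))) hMF
  · intro z hz
    rw [Bool.or_eq_true, hspec]
    by_cases hall : (fun i => (h i).eval (g z)) = ν
    · left
      have h1 := hP z hz
      simp only [hall] at h1
      exact h1
    · right
      obtain ⟨i, hi⟩ : ∃ i, (h i).eval (g z) ≠ ν i := by
        by_contra hcon
        push Not at hcon
        exact hall (funext hcon)
      have hνi : ν i = false := by
        cases hx : ν i with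
        | false => rfl
        | true => exact absurd ((hmon z i hx).trans hx.symm) hi
      refine ⟨i, hνi, ?_⟩
      rw [hνi] at hi
      simpa using hi
  · intro z hz
    obtain ⟨h1, h2⟩ := hN z hz
    have hall : ∀ i, (h i).eval (g z) = ν i := by
      intro i
      by_contra hne
      apply h2
      apply card_lt_card
      rw [ssubset_iff_of_subset]
      · refine ⟨i, ?_, ?_⟩
        · rw [mem_filter]
          refine ⟨mem_univ _, ?_⟩
          cases hx : ν i with
          | true => exact hmon z i hx
          | false => rw [hx] at hne; simpa using hne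
        · rw [mem_filter]
          rintro ⟨_, h3⟩
          exact hne ((hmon z i h3).trans h3.symm)
      · intro j hj
        rw [mem_filter] at hj ⊢
        exact ⟨mem_univ _, hmon z j hj.2⟩
    rw [Bool.or_eq_false_iff]
    constructor
    · have h3 : (fun i => (h i).eval (g z)) = ν := funext hall
      simp only [h3] at h1
      exact h1
    · rw [Bool.eq_false_iff]
      intro h5
      obtain ⟨i, hi, h4⟩ := (hspec z).1 h5
      rw [hall i, hi] at h4
      exact absurd h4 (by simp)

/-- Monotone circuits with antitone oracles have the separation property. -/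
theorem sep_oracle {t d : ℕ} (φ : Fin t → (Fin n → Bool) → Bool)
    (hφ : ∀ i x y, (∀ v, x v = true → y v = true) → φ i y = true → φ i x = true)
    (D : Circuit (n + t)) (hm : D.Monotone) (hd : D.depth ≤ d) (E : Type) :
    Sep (fun x => D.eval (Fin.append x fun i => φ i x))
      (fun x => (univ.filter fun i : Fin t => φ i x = false).card) d E := by
  intro g x0 N P hg hx0 _ hN hP
  set ν : Fin t → Bool := fun i => φ i x0 with hν
  have hmon : ∀ z i, φ i (g z) = true → ν i = true := fun z i => hφ i x0 (g z) (hx0 z)
  refine ⟨fun y => D.eval (Fin.append (g y) ν), ?_, ?_, ?_⟩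
  · refine ((mono_MF hm).subst (fun y => Fin.append (g y) ν) ?_).mono hd
    intro v
    induction v using Fin.addCases with
    | left v =>
      simp only [Fin.append_left]
      exact hg v
    | right i =>
      right
      exact ⟨ν i, fun y => by rw [Fin.append_right]⟩
  · intro z hz
    refine (mono_MF hm).le ?_ (hP z hz)
    intro v
    induction v using Fin.addCases with
    | left v => simp only [Fin.append_left]; exact id
    | right i => simp only [Fin.append_right]; exact hmon z i
  · intro z hz
    obtain ⟨h1, h2⟩ := hN z hz
    have hall : (fun i => φ i (g z)) = ν := by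
      funext i
      by_contra hne
      apply h2
      apply card_lt_card
      rw [ssubset_iff_of_subset]
      · refine ⟨i, ?_, ?_⟩
        · rw [mem_filter]
          refine ⟨mem_univ _, ?_⟩
          cases hx : φ i (g z) with
          | false => rfl
          | true => exact absurd (hx.trans (hmon z i hx).symm) hne
        · rw [mem_filter]
          rintro ⟨_, h3⟩
          cases hx : φ i (g z) with
          | true =>
            exact absurd (h3.symm.trans (hmon z i hx)) (by simp)
          | false => exact hne (hx.trans h3.symm)
      · intro j hj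
        rw [mem_filter] at hj ⊢
        refine ⟨mem_univ _, ?_⟩
        cases hx : φ j (g z) with
        | false => rfl
        | true => exact absurd (hj.2.symm.trans (hmon z j hx)) (by simp)
    simp only [hall] at h1
    exact h1

end Pool.Agent.T9h97.Fork
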