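import Pool.Agent.T9h97.Fork.Col

/-!
# Monotone formulas and the fork relation

`MF d f`: the Boolean function `f` of the variables `z e`, `e : E`, has a formula of depth at most
`d` over AND, OR, variables and constants.  In the layered graph with `L + 1` layers `A`, the
variable `(i, a, b)` says whether there is an edge from `(i, a)` to `(i + 1, b)`.  A word `X` gives
the graph `pth X` which consists of the edges of a path, and the graph `cut X` which has all edges
but those that leave the path.  `no_sep` is the bound of Grigni and Sipser: no formula of small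
depth is true for all graphs `pth X` and false for all graphs `cut Y`, if the words agree at the
beginning and differ at the end.
-/

set_option autoImplicit false
set_option linter.unusedSectionVars false

namespace Pool.Agent.T9h97.Fork

open Finset
open scoped Classical

/-- monotone formulas of depth at most `d` -/
inductive MF {E : Type} : ℕ → ((E → Bool) → Bool) → Prop
  | var (d : ℕ) (e : E) : MF d (fun z => z e)
  | const (d : ℕ) (b : Bool) : MF d (fun _ => b)
  | and {d : ℕ} {f g : (E → Bool) → Bool} : MF d f → MF d g → MF (d + 1) (fun z => f z && g z)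
  | or {d : ℕ} {f g : (E → Bool) → Bool} : MF d f → MF d g → MF (d + 1) (fun z => f z || g z)

variable {A : Type} [Fintype A] {L : ℕ}

/-- the edges of the path `X` -/
noncomputable def pth (X : ℕ → A) : Fin L × A × A → Bool :=
  fun e => decide (e.2.1 = X e.1 ∧ e.2.2 = X (e.1 + 1))

/-- all edges but those that leave the path `Y` -/
noncomputable def cut (Y : ℕ → A) : Fin L × A × A → Bool :=
  fun e => !decide (e.2.1 = Y e.1 ∧ e.2.2 ≠ Y (e.1 + 1))

/-- A dense set `S` of words of length `m` at the positions `s, ..., s + m - 1`, with extensions `X`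
and `Y` that agree before these positions and differ after them, such that `f` is true for `X` and
false for `Y`. -/
structure Cfg (m s q : ℕ) (f : (Fin L × A × A → Bool) → Bool) : Type where
  S : Finset (Fin m → A)
  X : (Fin m → A) → ℕ → A
  Y : (Fin m → A) → ℕ → A
  dense : Fintype.card A ^ m ≤ S.card * 2 ^ q
  acc : ∀ x ∈ S, f (pth (X x)) = true
  rej : ∀ x ∈ S, f (cut (Y x)) = false
  left : ∀ i < s, ∀ x ∈ S, ∀ y ∈ S, X x i = Y y i
  midX : ∀ x ∈ S, ∀ j : Fin m, X x (s + j) = x j
  midY : ∀ x ∈ S, ∀ j : Fin m, Y x (s + j) = x j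
  right : ∀ i, s + m ≤ i → i ≤ L → ∀ x ∈ S, ∀ y ∈ S, X x i ≠ Y y i

variable {m s q : ℕ} {f : (Fin L × A × A → Bool) → Bool}

lemma Cfg.nonempty (c : Cfg m s q f) (hA : 0 < Fintype.card A) : c.S.Nonempty := by
  rw [nonempty_iff_ne_empty]
  intro h
  have := c.dense
  rw [h] at this
  have h1 : 0 < Fintype.card A ^ m := by positivity
  simp at this
  omega

lemma card_last_le {m : ℕ} (S : Finset (Fin (m + 1) → A)) (a : A)
    (h : ∀ x ∈ S, x (Fin.last m) = a) : S.card ≤ Fintype.card A ^ m := by
  have h1 : S.card ≤ (univ : Finset (Fin m → A)).card := by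
    apply Finset.card_le_card_of_injOn (fun x => Fin.init x) (fun _ _ => by simp)
    intro x hx y hy hxy
    simp only at hxy
    rw [← Fin.snoc_init_self x, ← Fin.snoc_init_self y, hxy, h x hx, h y hy]
  simpa using h1

lemma Cfg.not_var (c : Cfg (m + 1) s q f) (hq : 2 ^ q < Fintype.card A)
    (e : Fin L × A × A) : f ≠ fun z => z e := by
  intro hf
  have hA : 0 < Fintype.card A := lt_of_le_of_lt (Nat.zero_le _) hq
  obtain ⟨x0, hx0⟩ := c.nonempty hA
  obtain ⟨i, a, b⟩ := e
  have hacc : ∀ x ∈ c.S, a = c.X x i ∧ b = c.X x (i + 1) := by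
    intro x hx
    have := (congrFun hf (pth (c.X x))).symm.trans (c.acc x hx)
    simpa [pth] using this
  have hrej : ∀ x ∈ c.S, a = c.Y x i ∧ b ≠ c.Y x (i + 1) := by
    intro x hx
    have := (congrFun hf (cut (c.Y x))).symm.trans (c.rej x hx)
    simpa [cut] using this
  rcases lt_or_ge (i.1 + 1) s with h1 | h1
  · exact (hrej x0 hx0).2 ((hacc x0 hx0).2.trans (c.left _ h1 x0 hx0 x0 hx0))
  rcases lt_or_ge (i.1 + 1) (s + (m + 1)) with h2 | h2
  · obtain ⟨j, hj⟩ : ∃ j, i.1 + 1 = s + j := ⟨i.1 + 1 - s, by omega⟩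
    have hjm : j < m + 1 := by omega
    have h3 := c.midX x0 hx0 ⟨j, hjm⟩
    have h4 := c.midY x0 hx0 ⟨j, hjm⟩
    simp only at h3 h4
    rw [← hj] at h3 h4
    exact (hrej x0 hx0).2 ((hacc x0 hx0).2.trans (h3.trans h4.symm))
  rcases lt_or_ge i.1 (s + (m + 1)) with h5 | h5
  · have h6 : ∀ x ∈ c.S, x (Fin.last m) = a := by
      intro x hx
      have h3 := c.midX x hx (Fin.last m)
      have h7 : s + ((Fin.last m : Fin (m + 1)) : ℕ) = i.1 := by
        simp only [Fin.val_last]; omega
      rw [h7] at h3
      rw [← h3]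
      exact (hacc x hx).1.symm
    have h8 := card_last_le c.S a h6
    have h9 := c.dense
    have h10 : Fintype.card A ^ (m + 1) ≤ Fintype.card A ^ m * 2 ^ q :=
      h9.trans (Nat.mul_le_mul_right _ h8)
    rw [pow_succ] at h10
    have h11 : 0 < Fintype.card A ^ m := by positivity
    have := Nat.le_of_mul_le_mul_left h10 h11
    omega
  · have hiL : i.1 ≤ L := i.2.le
    exact c.right i.1 h5 hiL x0 hx0 x0 hx0 ((hacc x0 hx0).1.symm.trans (hrej x0 hx0).1)

lemma Cfg.not_const (c : Cfg m s q f) (hA : 0 < Fintype.card A) (b : Bool) :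
    f ≠ fun _ => b := by
  intro hf
  obtain ⟨x0, hx0⟩ := c.nonempty hA
  have h1 := (congrFun hf (pth (c.X x0))).symm.trans (c.acc x0 hx0)
  have h2 := (congrFun hf (cut (c.Y x0))).symm.trans (c.rej x0 hx0)
  rw [h1] at h2
  exact absurd h2 (by simp)

/-- restriction to a subset of at least half the size -/
def Cfg.restrict (c : Cfg m s q f) (g : (Fin L × A × A → Bool) → Bool) (S' : Finset (Fin m → A))
    (hS' : S' ⊆ c.S) (hc : c.S.card ≤ S'.card * 2)
    (acc : ∀ x ∈ S', g (pth (c.X x)) = true) (rej : ∀ x ∈ S', g (cut (c.Y x)) = false) :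
    Cfg m s (q + 1) g where
  S := S'
  X := c.X
  Y := c.Y
  dense := by
    have h := c.dense
    calc Fintype.card A ^ m ≤ c.S.card * 2 ^ q := h
      _ ≤ (S'.card * 2) * 2 ^ q := Nat.mul_le_mul_right _ hc
      _ = S'.card * 2 ^ (q + 1) := by ring
  acc := acc
  rej := rej
  left i hi x hx y hy := c.left i hi x (hS' hx) y (hS' hy)
  midX x hx j := c.midX x (hS' hx) j
  midY x hx j := c.midY x (hS' hx) j
  right i h1 h2 x hx y hy := c.right i h1 h2 x (hS' hx) y (hS' hy)

lemma half (S S1 S2 : Finset (Fin m → A)) (h : S ⊆ S1 ∪ S2) :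
    S.card ≤ S1.card * 2 ∨ S.card ≤ S2.card * 2 := by
  have := (card_le_card h).trans (card_union_le S1 S2)
  omega

lemma Cfg.and_step {g h : (Fin L × A × A → Bool) → Bool} (c : Cfg m s q (fun z => g z && h z)) :
    Nonempty (Cfg m s (q + 1) g) ∨ Nonempty (Cfg m s (q + 1) h) := by
  have hacc : ∀ x ∈ c.S, g (pth (c.X x)) = true ∧ h (pth (c.X x)) = true := by
    intro x hx
    have := c.acc x hx
    simpa using this
  have hsub : c.S ⊆ (c.S.filter fun x => g (cut (c.Y x)) = false) ∪
      (c.S.filter fun x => h (cut (c.Y x)) = false) := by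
    intro x hx
    have := c.rej x hx
    rw [mem_union, mem_filter, mem_filter]
    rcases hg : g (cut (c.Y x)) with _ | _
    · exact Or.inl ⟨hx, rfl⟩
    · right
      refine ⟨hx, ?_⟩
      simpa [hg] using this
  rcases half _ _ _ hsub with h1 | h1
  · left
    exact ⟨c.restrict g _ (filter_subset _ _) h1
      (fun x hx => (hacc x (mem_filter.1 hx).1).1) (fun x hx => (mem_filter.1 hx).2)⟩
  · right
    exact ⟨c.restrict h _ (filter_subset _ _) h1
      (fun x hx => (hacc x (mem_filter.1 hx).1).2) (fun x hx => (mem_filter.1 hx).2)⟩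

lemma Cfg.or_step {g h : (Fin L × A × A → Bool) → Bool} (c : Cfg m s q (fun z => g z || h z)) :
    Nonempty (Cfg m s (q + 1) g) ∨ Nonempty (Cfg m s (q + 1) h) := by
  have hrej : ∀ x ∈ c.S, g (cut (c.Y x)) = false ∧ h (cut (c.Y x)) = false := by
    intro x hx
    have := c.rej x hx
    simpa using this
  have hsub : c.S ⊆ (c.S.filter fun x => g (pth (c.X x)) = true) ∪
      (c.S.filter fun x => h (pth (c.X x)) = true) := by
    intro x hx
    have := c.acc x hx
    rw [mem_union, mem_filter, mem_filter]
    rcases hg : g (pth (c.X x)) with _ | _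
    · right
      refine ⟨hx, ?_⟩
      simpa [hg] using this
    · exact Or.inl ⟨hx, rfl⟩
  rcases half _ _ _ hsub with h1 | h1
  · left
    exact ⟨c.restrict g _ (filter_subset _ _) h1
      (fun x hx => (mem_filter.1 hx).2) (fun x hx => (hrej x (mem_filter.1 hx).1).1)⟩
  · right
    exact ⟨c.restrict h _ (filter_subset _ _) h1
      (fun x hx => (mem_filter.1 hx).2) (fun x hx => (hrej x (mem_filter.1 hx).1).2)⟩

/-- the words that continue `u` -/
noncomputable def cont (S : Finset (Fin (m + m) → A)) (u : Fin m → A) : Finset (Fin m → A) :=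
  univ.filter fun v => Fin.append u v ∈ S

lemma mem_cont {S : Finset (Fin (m + m) → A)} {u v : Fin m → A} :
    v ∈ cont S u ↔ Fin.append u v ∈ S := by simp [cont]

lemma sum_cont (S : Finset (Fin (m + m) → A)) : ∑ u : Fin m → A, (cont S u).card = S.card := by
  have h1 : S.card = (univ.filter fun p : (Fin m → A) × (Fin m → A) =>
      Fin.append p.1 p.2 ∈ S).card := by
    apply Finset.card_bij' (fun w _ => ((Fin.appendEquiv m m).symm w))
      (fun p _ => Fin.append p.1 p.2)
    · intro w hw
      rw [mem_filter]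
      refine ⟨mem_univ _, ?_⟩
      have : Fin.append ((Fin.appendEquiv m m).symm w).1 ((Fin.appendEquiv m m).symm w).2 = w :=
        (Fin.appendEquiv m m).apply_symm_apply w
      rwa [this]
    · intro p hp
      exact (mem_filter.1 hp).2
    · intro w _
      exact (Fin.appendEquiv m m).apply_symm_apply w
    · intro p _
      exact (Fin.appendEquiv m m).symm_apply_apply p
  rw [h1, Finset.card_filter, ← Finset.univ_product_univ, Finset.sum_product]
  refine Finset.sum_congr rfl fun u _ => ?_
  rw [cont, Finset.card_filter]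

/-- Halving the length: the density `2 ^ (-2 b)` becomes `2 ^ (-b - 1)`. -/
theorem Cfg.amplify {b : ℕ} (c : Cfg (m + m) s (2 * b) f) (hm : 0 < m)
    (hw : m * 2 ^ (2 * b + 4) ≤ Fintype.card A) :
    Nonempty (Cfg m s (b + 1) f) ∨ Nonempty (Cfg m (s + m) (b + 1) f) := by
  set w := Fintype.card A with hwdef
  have hw0 : 0 < w := by
    have : 0 < m * 2 ^ (2 * b + 4) := by positivity
    omega
  by_cases h1 : ∃ u, w ^ m ≤ (cont c.S u).card * 2 ^ (b + 1)
  · right
    obtain ⟨u, hu⟩ := h1
    refine ⟨⟨cont c.S u, fun v => c.X (Fin.append u v), fun v => c.Y (Fin.append u v), hu,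
      fun v hv => c.acc _ (mem_cont.1 hv), fun v hv => c.rej _ (mem_cont.1 hv), ?_, ?_, ?_, ?_⟩⟩
    · intro i hi v hv v' hv'
      rcases lt_or_ge i s with h2 | h2
      · exact c.left i h2 _ (mem_cont.1 hv) _ (mem_cont.1 hv')
      · obtain ⟨j, rfl⟩ : ∃ j, i = s + j := ⟨i - s, by omega⟩
        have hj : j < m := by omega
        have h3 := c.midX _ (mem_cont.1 hv) (Fin.castAdd m ⟨j, hj⟩)
        have h4 := c.midY _ (mem_cont.1 hv') (Fin.castAdd m ⟨j, hj⟩)
        rw [Fin.append_left] at h3 h4
        simp only [Fin.val_castAdd] at h3 h4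
        rw [h3, h4]
    · intro v hv j
      have h3 := c.midX _ (mem_cont.1 hv) (Fin.natAdd m j)
      rw [Fin.append_right] at h3
      simp only [Fin.val_natAdd] at h3
      rw [← h3, add_assoc]
    · intro v hv j
      have h3 := c.midY _ (mem_cont.1 hv) (Fin.natAdd m j)
      rw [Fin.append_right] at h3
      simp only [Fin.val_natAdd] at h3
      rw [← h3, add_assoc]
    · intro i h2 h3 v hv v' hv'
      exact c.right i (by omega) h3 _ (mem_cont.1 hv) _ (mem_cont.1 hv')
  · left
    push Not at h1
    -- many prefixes have many continuations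
    set U := univ.filter fun u : Fin m → A => w ^ m ≤ (cont c.S u).card * 2 ^ (2 * b + 1) with hU
    have hUcard : w ^ m ≤ U.card * 2 ^ b := by
      have h2 := c.dense
      rw [← sum_cont, ← Finset.sum_filter_add_sum_filter_not univ
        (fun u : Fin m → A => w ^ m ≤ (cont c.S u).card * 2 ^ (2 * b + 1))] at h2
      rw [← hwdef] at h2
      have h3 : (∑ u ∈ univ.filter (fun u : Fin m → A =>
          w ^ m ≤ (cont c.S u).card * 2 ^ (2 * b + 1)), (cont c.S u).card) * 2 ^ (b + 1) ≤
          U.card * w ^ m := by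
        rw [Finset.sum_mul]
        calc ∑ u ∈ U, (cont c.S u).card * 2 ^ (b + 1) ≤ ∑ u ∈ U, w ^ m :=
              Finset.sum_le_sum fun u _ => (h1 u).le
          _ = U.card * w ^ m := by rw [Finset.sum_const, smul_eq_mul]
      have h4 : (∑ u ∈ univ.filter (fun u : Fin m → A =>
          ¬ w ^ m ≤ (cont c.S u).card * 2 ^ (2 * b + 1)), (cont c.S u).card) * 2 ^ (2 * b + 1) ≤
          w ^ m * w ^ m := by
        rw [Finset.sum_mul]
        calc ∑ u ∈ univ.filter (fun u : Fin m → A =>
              ¬ w ^ m ≤ (cont c.S u).card * 2 ^ (2 * b + 1)), (cont c.S u).card * 2 ^ (2 * b + 1)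
            ≤ ∑ u ∈ univ.filter (fun u : Fin m → A =>
              ¬ w ^ m ≤ (cont c.S u).card * 2 ^ (2 * b + 1)), w ^ m := by
              refine Finset.sum_le_sum fun u hu => ?_
              rw [mem_filter] at hu
              exact (not_le.1 hu.2).le
          _ ≤ ∑ u : Fin m → A, w ^ m :=
              Finset.sum_le_sum_of_subset (subset_univ _)
          _ = w ^ m * w ^ m := by
              rw [Finset.sum_const, smul_eq_mul, Finset.card_univ]
              simp [hwdef]
      set a1 := ∑ u ∈ univ.filter (fun u : Fin m → A =>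
          w ^ m ≤ (cont c.S u).card * 2 ^ (2 * b + 1)), (cont c.S u).card
      set a2 := ∑ u ∈ univ.filter (fun u : Fin m → A =>
          ¬ w ^ m ≤ (cont c.S u).card * 2 ^ (2 * b + 1)), (cont c.S u).card
      have hW : 0 < w ^ m := by positivity
      have h5 : 2 * (w ^ m * w ^ m) ≤ U.card * w ^ m * 2 ^ b + w ^ m * w ^ m := by
        calc 2 * (w ^ m * w ^ m) = 2 * w ^ (m + m) := by rw [pow_add]
          _ ≤ 2 * ((a1 + a2) * 2 ^ (2 * b)) := Nat.mul_le_mul_left _ h2
          _ = (a1 * 2 ^ (b + 1)) * 2 ^ b + a2 * 2 ^ (2 * b + 1) := by ring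
          _ ≤ (U.card * w ^ m) * 2 ^ b + w ^ m * w ^ m :=
              Nat.add_le_add (Nat.mul_le_mul_right _ h3) h4
      have h6 : w ^ m * w ^ m ≤ (U.card * 2 ^ b) * w ^ m := by
        have : U.card * w ^ m * 2 ^ b = (U.card * 2 ^ b) * w ^ m := by ring
        rw [this] at h5
        omega
      exact Nat.le_of_mul_le_mul_right h6 hW
    -- a good colouring
    set bad : (Fin m → A → Bool) → (Fin m → A) → Prop := fun col u =>
      (∀ v ∈ cont c.S u, ∃ i, col i (v i) ≠ true) ∨ (∀ v ∈ cont c.S u, ∃ i, col i (v i) ≠ false)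
      with hbad
    obtain ⟨col, hcol⟩ : ∃ col : Fin m → A → Bool, (U.filter fun u => bad col u).card * 2 ≤ U.card := by
      by_contra hcon
      push Not at hcon
      have h2 : ∀ u ∈ U, 2 * (univ.filter fun col : Fin m → A → Bool => bad col u).card ≤
          Fintype.card (Fin m → A → Bool) := by
        intro u hu
        rw [hU, mem_filter] at hu
        have h3 := few_miss true (cont c.S u) (2 * b + 1) hu.2 hw
        have h4 := few_miss false (cont c.S u) (2 * b + 1) hu.2 hw
        have h5 : (univ.filter fun col : Fin m → A → Bool => bad col u).card ≤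
            (univ.filter fun c' : Fin m → A → Bool => ∀ v ∈ cont c.S u, ∃ i, c' i (v i) ≠ true).card +
            (univ.filter fun c' : Fin m → A → Bool =>
              ∀ v ∈ cont c.S u, ∃ i, c' i (v i) ≠ false).card := by
          refine le_trans (card_le_card ?_) (card_union_le _ _)
          intro col hc
          rw [mem_filter] at hc
          rw [mem_union, mem_filter, mem_filter]
          rcases hc.2 with h | h
          · exact Or.inl ⟨mem_univ _, h⟩
          · exact Or.inr ⟨mem_univ _, h⟩
        omega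
      have h6 : ∑ col : Fin m → A → Bool, (U.filter fun u => bad col u).card * 2 ≤
          Fintype.card (Fin m → A → Bool) * U.card := by
        have h7 : ∑ col : Fin m → A → Bool, (U.filter fun u => bad col u).card =
            ∑ u ∈ U, (univ.filter fun col : Fin m → A → Bool => bad col u).card := by
          simp only [Finset.card_filter]
          rw [Finset.sum_comm]
        rw [← Finset.sum_mul, h7, Finset.sum_mul]
        calc ∑ u ∈ U, (univ.filter fun col : Fin m → A → Bool => bad col u).card * 2
            ≤ ∑ u ∈ U, Fintype.card (Fin m → A → Bool) := by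
              refine Finset.sum_le_sum fun u hu => ?_
              have := h2 u hu
              omega
          _ = _ := by rw [Finset.sum_const, smul_eq_mul, mul_comm]
      have h8 : ∑ col : Fin m → A → Bool, (U.card + 1) ≤
          ∑ col : Fin m → A → Bool, (U.filter fun u => bad col u).card * 2 :=
        Finset.sum_le_sum fun col _ => hcon col
      rw [Finset.sum_const, smul_eq_mul, Finset.card_univ] at h8
      have h9 : 0 < Fintype.card (Fin m → A → Bool) := Fintype.card_pos
      nlinarith
    have hgood : ∀ u ∈ U.filter (fun u => ¬ bad col u),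
        (∃ v ∈ cont c.S u, ∀ i, col i (v i) = true) ∧
        (∃ v ∈ cont c.S u, ∀ i, col i (v i) = false) := by
      intro u hu
      rw [mem_filter, hbad] at hu
      have h3 := hu.2
      simp only at h3
      push Not at h3
      exact h3
    have hcard : w ^ m ≤ (U.filter (fun u => ¬ bad col u)).card * 2 ^ (b + 1) := by
      have h2 := Finset.card_filter_add_card_filter_not (s := U) (fun u => bad col u)
      have h3 : U.card ≤ (U.filter (fun u => ¬ bad col u)).card * 2 := by omega
      calc w ^ m ≤ U.card * 2 ^ b := hUcard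
        _ ≤ ((U.filter (fun u => ¬ bad col u)).card * 2) * 2 ^ b := Nat.mul_le_mul_right _ h3
        _ = _ := by ring
    -- choice of the continuations
    have hex1 : ∀ u : Fin m → A, ∃ v : Fin m → A, u ∈ U.filter (fun u => ¬ bad col u) →
        v ∈ cont c.S u ∧ ∀ i, col i (v i) = true := by
      intro u
      by_cases hu : u ∈ U.filter (fun u => ¬ bad col u)
      · obtain ⟨v, hv, hv'⟩ := (hgood u hu).1
        exact ⟨v, fun _ => ⟨hv, hv'⟩⟩
      · exact ⟨u, fun h => absurd h hu⟩
    have hex2 : ∀ u : Fin m → A, ∃ v : Fin m → A, u ∈ U.filter (fun u => ¬ bad col u) →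
        v ∈ cont c.S u ∧ ∀ i, col i (v i) = false := by
      intro u
      by_cases hu : u ∈ U.filter (fun u => ¬ bad col u)
      · obtain ⟨v, hv, hv'⟩ := (hgood u hu).2
        exact ⟨v, fun _ => ⟨hv, hv'⟩⟩
      · exact ⟨u, fun h => absurd h hu⟩
    choose V hV using hex1
    choose V' hV' using hex2
    refine ⟨⟨U.filter (fun u => ¬ bad col u), fun u => c.X (Fin.append u (V u)),
      fun u => c.Y (Fin.append u (V' u)), hcard, ?_, ?_, ?_, ?_, ?_, ?_⟩⟩
    · intro u hu
      exact c.acc _ (mem_cont.1 (hV u hu).1)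
    · intro u hu
      exact c.rej _ (mem_cont.1 (hV' u hu).1)
    · intro i hi u hu u' hu'
      exact c.left i hi _ (mem_cont.1 (hV u hu).1) _ (mem_cont.1 (hV' u' hu').1)
    · intro u hu j
      have h3 := c.midX _ (mem_cont.1 (hV u hu).1) (Fin.castAdd m j)
      rw [Fin.append_left] at h3
      simpa using h3
    · intro u hu j
      have h3 := c.midY _ (mem_cont.1 (hV' u hu).1) (Fin.castAdd m j)
      rw [Fin.append_left] at h3
      simpa using h3
    · intro i h2 h3 u hu u' hu'
      rcases lt_or_ge i (s + (m + m)) with h4 | h4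
      · obtain ⟨j, rfl⟩ : ∃ j, i = s + (m + j) := ⟨i - s - m, by omega⟩
        have hj : j < m := by omega
        have h5 := c.midX _ (mem_cont.1 (hV u hu).1) (Fin.natAdd m ⟨j, hj⟩)
        have h6 := c.midY _ (mem_cont.1 (hV' u' hu').1) (Fin.natAdd m ⟨j, hj⟩)
        rw [Fin.append_right] at h5 h6
        simp only [Fin.val_natAdd] at h5 h6
        rw [h5, h6]
        intro h7
        have h8 := (hV u hu).2 ⟨j, hj⟩
        have h9 := (hV' u' hu').2 ⟨j, hj⟩
        rw [h7, h9] at h8
        exact absurd h8 (by simp)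
      · exact c.right i h4 h3 _ (mem_cont.1 (hV u hu).1) _ (mem_cont.1 (hV' u' hu').1)

lemma no_cfg {b : ℕ} (hb : 1 ≤ b) : ∀ k : ℕ, 2 ^ k * 2 ^ (2 * b + 4) ≤ Fintype.card A →
    ∀ (d s : ℕ) (f : (Fin L × A × A → Bool) → Bool), MF d f → d ≤ k * (b - 1) →
    s + 2 ^ k ≤ L → ¬ Nonempty (Cfg (2 ^ k) s (b + 1) f) := by
  intro k
  induction k with
  | zero =>
    intro hw d s f hf hd hs
    rintro ⟨c⟩
    have hq : 2 ^ (b + 1) < Fintype.card A := by
      have : 2 ^ (b + 1) < 2 ^ 0 * 2 ^ (2 * b + 4) := by
        rw [pow_zero, one_mul]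
        exact Nat.pow_lt_pow_right (by norm_num) (by omega)
      omega
    have hA : 0 < Fintype.card A := by
      have : 0 < 2 ^ (b + 1) := by positivity
      omega
    cases hf with
    | var _ e =>
      have c' : Cfg (0 + 1) s (b + 1) (fun z : Fin L × A × A → Bool => z e) := by simpa using c
      exact c'.not_var hq e rfl
    | const _ b' => exact c.not_const hA b' rfl
    | and h1 h2 => omega
    | or h1 h2 => omega
  | succ k ih =>
    intro hw d s f hf hd hs
    have hpow : 2 ^ (k + 1) = 2 ^ k + 2 ^ k := by ring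
    rw [hpow] at hs
    have hwk : 2 ^ k * 2 ^ (2 * b + 4) ≤ Fintype.card A := by
      refine le_trans ?_ hw
      exact Nat.mul_le_mul_right _ (Nat.pow_le_pow_right (by norm_num) (by omega))
    have hq : 2 ^ (2 * b) < Fintype.card A := by
      have h1 : 2 ^ (2 * b) < 2 ^ (2 * b + 4) := Nat.pow_lt_pow_right (by norm_num) (by omega)
      have h2 : 2 ^ (2 * b + 4) ≤ 2 ^ (k + 1) * 2 ^ (2 * b + 4) :=
        Nat.le_mul_of_pos_left _ (by positivity)
      omega
    have hA : 0 < Fintype.card A := by
      have : 0 < 2 ^ (2 * b) := by positivity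
      omega
    have hs1 : s + 2 ^ k ≤ L := le_trans (Nat.add_le_add_left (Nat.le_add_right _ _) s) hs
    have hs2 : s + 2 ^ k + 2 ^ k ≤ L := by rw [add_assoc]; exact hs
    have key : ∀ j : ℕ, j ≤ b - 1 → ∀ (d : ℕ) (f : (Fin L × A × A → Bool) → Bool), MF d f →
        d ≤ j + k * (b - 1) → ¬ Nonempty (Cfg (2 ^ k + 2 ^ k) s (2 * b - j) f) := by
      intro j
      induction j with
      | zero =>
        intro _ d f hf hd
        rintro ⟨c⟩
        rw [Nat.sub_zero] at c
        have hd' : d ≤ k * (b - 1) := by rw [zero_add] at hd; exact hd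
        rcases c.amplify (by positivity) hwk with h | h
        · exact ih hwk d s f hf hd' hs1 h
        · exact ih hwk d (s + 2 ^ k) f hf hd' hs2 h
      | succ j ihj =>
        intro hj d f hf hd
        rintro ⟨c⟩
        have hq' : 2 ^ (2 * b - (j + 1)) < Fintype.card A :=
          lt_of_le_of_lt (Nat.pow_le_pow_right (by norm_num) (by omega)) hq
        have hsub : 2 * b - (j + 1) + 1 = 2 * b - j := by omega
        cases hf with
        | var _ e =>
          obtain ⟨m', hm'⟩ : ∃ m', 2 ^ k + 2 ^ k = m' + 1 :=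
            ⟨2 ^ k + 2 ^ k - 1, by have : 0 < 2 ^ k := by positivity
                                   omega⟩
          rw [hm'] at c
          exact c.not_var hq' e rfl
        | const _ b' => exact c.not_const hA b' rfl
        | and h1 h2 =>
          have h3 := c.and_step
          rw [hsub] at h3
          rcases h3 with h | h
          · exact ihj (by omega) _ _ h1 (by omega) h
          · exact ihj (by omega) _ _ h2 (by omega) h
        | or h1 h2 =>
          have h3 := c.or_step
          rw [hsub] at h3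
          rcases h3 with h | h
          · exact ihj (by omega) _ _ h1 (by omega) h
          · exact ihj (by omega) _ _ h2 (by omega) h
    rintro ⟨c⟩
    rw [hpow] at c
    have h1 : 2 * b - (b - 1) = b + 1 := by omega
    have h2 := key (b - 1) le_rfl d f hf (by rw [add_mul] at hd; omega)
    rw [h1] at h2
    exact h2 ⟨c⟩

/-- the word `x` between `a` and `a'` -/
def wrd {k : ℕ} (a a' : A) (x : Fin (2 ^ k) → A) : ℕ → A := fun i =>
  if i = 0 then a else if h : i - 1 < 2 ^ k then x ⟨i - 1, h⟩ else a'

lemma wrd_zero {k : ℕ} (a a' : A) (x : Fin (2 ^ k) → A) : wrd a a' x 0 = a := by simp [wrd]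

lemma wrd_last {k : ℕ} (a a' : A) (x : Fin (2 ^ k) → A) {i : ℕ} (hi : 2 ^ k < i) :
    wrd a a' x i = a' := by
  have h0 : 0 < 2 ^ k := by positivity
  unfold wrd
  rw [if_neg (by omega), dif_neg (by omega)]

lemma wrd_mid {k : ℕ} (a a' : A) (x : Fin (2 ^ k) → A) (j : Fin (2 ^ k)) :
    wrd a a' x (1 + j) = x j := by
  unfold wrd
  rw [if_neg (by omega), dif_pos (show 1 + j.1 - 1 < 2 ^ k by omega)]
  congr 1
  ext
  simp

/-- Monotone formulas of depth at most `k (b - 1)` do not separate the paths from `a` to `a'` from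
the cuts given by paths from `a` to `a''`. -/
theorem no_sep {k b d : ℕ} (hb : 1 ≤ b) (hw : 2 ^ k * 2 ^ (2 * b + 4) ≤ Fintype.card A)
    (hd : d ≤ k * (b - 1)) (hL : L = 2 ^ k + 1) (a a' a'' : A) (ha : a' ≠ a'')
    (f : (Fin L × A × A → Bool) → Bool) (hf : MF d f)
    (hacc : ∀ x : Fin (2 ^ k) → A, f (pth (wrd a a' x)) = true)
    (hrej : ∀ x : Fin (2 ^ k) → A, f (cut (wrd a a'' x)) = false) : False := by
  refine no_cfg hb k hw d 1 f hf hd (by omega) ⟨⟨univ, wrd a a', wrd a a'', ?_, fun x _ => hacc x,
    fun x _ => hrej x, ?_, ?_, ?_, ?_⟩⟩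
  · have h1 : (univ : Finset (Fin (2 ^ k) → A)).card = Fintype.card A ^ 2 ^ k := by simp
    rw [h1]
    exact Nat.le_mul_of_pos_right _ (by positivity)
  · intro i hi x _ y _
    have : i = 0 := by omega
    subst this
    rw [wrd_zero, wrd_zero]
  · intro x _ j
    exact wrd_mid a a' x j
  · intro x _ j
    exact wrd_mid a a'' x j
  · intro i h1 _ x _ y _
    have h2 : 2 ^ k < i := by omega
    rw [wrd_last _ _ _ h2, wrd_last _ _ _ h2]
    exact ha

end Pool.Agent.T9h97.Fork
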