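import Pool.Agent.T9h97.Fork.Adv

/-!
# Monotone advice and antitone oracles together
-/

set_option autoImplicit false

namespace Pool.Agent.T9h97.Fork

open Finset Pool.Agent.H540R2
open scoped Classical

variable {n : ℕ}

/-- Monotone circuits which are chosen by monotone advice and read antitone oracles have the
separation property. -/
theorem sep_both {R t d a : ℕ} (h : Fin R → Circuit n)
    (hh : ∀ i, (h i).Monotone ∧ (h i).depth ≤ d)
    (φ : Fin t → (Fin n → Bool) → Bool)
    (hφ : ∀ i x y, (∀ v, x v = true → y v = true) → φ i y = true → φ i x = true)
    (D : (Fin R → Bool) → Circuit (n + t))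
    (hD : ∀ v, (D v).Monotone ∧ (D v).depth ≤ d) (hR : R + 1 ≤ 2 ^ a) (E : Type) :
    Sep (fun x => (D fun i => (h i).eval x).eval (Fin.append x fun i => φ i x))
      (fun x => (univ.filter fun i : Fin R => (h i).eval x = true).card +
        (univ.filter fun i : Fin t => φ i x = false).card) (d + a) E := by
  intro g x0 N P hg hx0 _ hN hP
  set ν : Fin R → Bool := fun i => (h i).eval x0 with hν
  set μ : Fin t → Bool := fun i => φ i x0 with hμ
  have hmon : ∀ z i, ν i = true → (h i).eval (g z) = true := fun z i =>
    (mono_MF (hh i).1).le (hx0 z)
  have hmonφ : ∀ z i, φ i (g z) = true → μ i = true := fun z i => hφ i x0 (g z) (hx0 z)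
  -- the family of the formulas
  obtain ⟨h', hMF, hspec⟩ : ∃ h' : (E → Bool) → Bool, MF (d + a) h' ∧
      ∀ y, h' y = true ↔ (D ν).eval (Fin.append (g y) μ) = true ∨
        ∃ i, ν i = false ∧ (h i).eval (g y) = true := by
    obtain ⟨h', h1, h2⟩ := MF.any_ex (fun (o : Option (Fin R)) (y : E → Bool) =>
      match o with
      | none => (D ν).eval (Fin.append (g y) μ)
      | some i => (h i).eval (g y)) a
      (insert none ((univ.filter (fun i => ν i = false)).map Function.Embedding.some)) (by
        refine (card_insert_le _ _).trans ?_
        rw [card_map]
        have : (univ.filter (fun i : Fin R => ν i = false)).card ≤ R :=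
          (card_le_univ _).trans (by simp)
        omega) (d := d) (by
        intro o ho
        rcases mem_insert.1 ho with rfl | ho
        · refine ((mono_MF (hD ν).1).subst (fun y => Fin.append (g y) μ) ?_).mono (hD ν).2
          intro v
          induction v using Fin.addCases with
          | left v =>
            simp only [Fin.append_left]
            exact hg v
          | right i =>
            right
            exact ⟨μ i, fun y => by rw [Fin.append_right]⟩
        · obtain ⟨i, _, rfl⟩ := mem_map.1 ho
          exact ((mono_MF (hh i).1).subst g hg).mono (hh i).2)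
    refine ⟨h', h1, fun y => (h2 y).trans ?_⟩
    constructor
    · rintro ⟨o, ho, h3⟩
      rcases mem_insert.1 ho with rfl | ho
      · exact Or.inl h3
      · obtain ⟨i, hi, rfl⟩ := mem_map.1 ho
        exact Or.inr ⟨i, (mem_filter.1 hi).2, h3⟩
    · rintro (h3 | ⟨i, hi, h3⟩)
      · exact ⟨none, mem_insert_self _ _, h3⟩
      · exact ⟨some i, mem_insert_of_mem (mem_map.2 ⟨i, mem_filter.2 ⟨mem_univ _, hi⟩, rfl⟩), h3⟩
  refine ⟨h', hMF, ?_, ?_⟩
  · intro z hz
    rw [hspec]
    by_cases hall : (fun i => (h i).eval (g z)) = ν
    · left
      have h1 := hP z hz
      simp only [hall] at h1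
      refine (mono_MF (hD ν).1).le ?_ h1
      intro v
      induction v using Fin.addCases with
      | left v => simp only [Fin.append_left]; exact id
      | right i => simp only [Fin.append_right]; exact hmonφ z i
    · right
      obtain ⟨i, hi⟩ : ∃ i, (h i).eval (g z) ≠ ν i := by
        by_contra hcon
        push Not at hcon
        exact hall (funext hcon)
      have hνi : ν i = false := by
        cases hx : ν i with
        | false => rfl
        | true => exact absurd ((hmon z i hx).trans hx.symm) hi
      refine ⟨i, hνi, ?_⟩
      rw [hνi] at hi
      simpa using hi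
  · intro z hz
    obtain ⟨h1, h2⟩ := hN z hz
    have hsub1 : (univ.filter fun i : Fin R => (h i).eval x0 = true) ⊆
        (univ.filter fun i : Fin R => (h i).eval (g z) = true) := by
      intro j hj
      rw [mem_filter] at hj ⊢
      exact ⟨mem_univ _, hmon z j hj.2⟩
    have hsub2 : (univ.filter fun i : Fin t => φ i x0 = false) ⊆
        (univ.filter fun i : Fin t => φ i (g z) = false) := by
      intro j hj
      rw [mem_filter] at hj ⊢
      refine ⟨mem_univ _, ?_⟩
      cases hx : φ j (g z) with
      | false => rfl
      | true => exact absurd (hj.2.symm.trans (hmonφ z j hx)) (by simp)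
    have hc1 := card_le_card hsub1
    have hc2 := card_le_card hsub2
    have h2' := not_lt.1 h2
    simp only at h2'
    have he1 := eq_of_subset_of_card_le hsub1 (by omega)
    have he2 := eq_of_subset_of_card_le hsub2 (by omega)
    have hall1 : (fun i => (h i).eval (g z)) = ν := by
      funext i
      cases hx : ν i with
      | true => exact hmon z i hx
      | false =>
        cases hy : (h i).eval (g z) with
        | false => rfl
        | true =>
          have : i ∈ univ.filter fun i : Fin R => (h i).eval x0 = true := by
            rw [he1]; exact mem_filter.2 ⟨mem_univ _, hy⟩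
          exact absurd (hx.symm.trans (mem_filter.1 this).2) (by simp)
    have hall2 : (fun i => φ i (g z)) = μ := by
      funext i
      cases hx : φ i (g z) with
      | true => exact (hmonφ z i hx).symm
      | false =>
        have : i ∈ univ.filter fun i : Fin t => φ i x0 = false := by
          rw [he2]; exact mem_filter.2 ⟨mem_univ _, hx⟩
        exact (mem_filter.1 this).2.symm
    rw [Bool.eq_false_iff]
    intro h5
    rcases (hspec z).1 h5 with h6 | ⟨i, hi, h4⟩
    · simp only [hall1, hall2] at h1
      rw [h1] at h6
      exact absurd h6 (by simp)
    · have := congrFun hall1 i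
      simp only [h4, hi] at this
      exact absurd this (by simp)

end Pool.Agent.T9h97.Fork
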