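import Mathlib

/-!
# Random colourings hit dense sets of words

`c i a` is the colour of the letter `a` at the position `i < m`.  If `D` is a set of words of length
`m` over an alphabet with `w` letters and of density at least `2 ^ (-q)`, `m * 2 ^ (q + 3) ≤ w`, then
at most a quarter of all colourings give no word of `D` the colour `β` at all positions.
-/

set_option autoImplicit false
set_option linter.unusedSectionVars false

namespace Pool.Agent.T9h97.Fork

open Finset
open scoped Classical

variable {A : Type} [Fintype A]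

/-- weight of the colour of a letter -/
def wt (β : Bool) (a : A) (g : A → Bool) : ℤ := if g a = β then 2 else 0

lemma sum_bool_fun (ψ : A → Bool → ℤ) :
    ∑ g : A → Bool, ∏ a, ψ a (g a) = ∏ a, (ψ a true + ψ a false) := by
  rw [← Fintype.piFinset_univ, Finset.sum_prod_piFinset]
  simp

lemma sum_wt (β : Bool) (a : A) : ∑ g : A → Bool, wt β a g = 2 ^ Fintype.card A := by
  have h := sum_bool_fun (A := A) (fun a' b => if a' = a then (if b = β then 2 else 0) else 1)
  have h1 : ∀ g : A → Bool, ∏ a', (if a' = a then (if g a' = β then (2 : ℤ) else 0) else 1)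
      = wt β a g := by
    intro g
    rw [Finset.prod_ite_eq' univ a (fun a' => if g a' = β then (2 : ℤ) else 0)]
    simp [wt]
  simp only [h1] at h
  rw [h]
  have h2 : ∀ a' : A, ((if a' = a then (if true = β then (2 : ℤ) else 0) else 1) +
      (if a' = a then (if false = β then (2 : ℤ) else 0) else 1)) = 2 := by
    intro a'
    cases β <;> by_cases h : a' = a <;> simp [h]
  simp only [h2]
  simp

lemma sum_wt_mul (β : Bool) (a b : A) : ∑ g : A → Bool, wt β a g * wt β b g =
    2 ^ Fintype.card A * (if a = b then 2 else 1) := by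
  by_cases hab : a = b
  · subst hab
    have h1 : ∀ g : A → Bool, wt β a g * wt β a g = 2 * wt β a g := by
      intro g
      unfold wt
      split_ifs <;> norm_num
    simp only [h1]
    rw [← Finset.mul_sum, sum_wt]
    simp
    ring
  · have h := sum_bool_fun (A := A) (fun a' c => (if a' = a then (if c = β then 2 else 0) else 1) *
      (if a' = b then (if c = β then 2 else 0) else 1))
    have h1 : ∀ g : A → Bool, ∏ a', ((if a' = a then (if g a' = β then (2 : ℤ) else 0) else 1) *
        (if a' = b then (if g a' = β then (2 : ℤ) else 0) else 1)) = wt β a g * wt β b g := by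
      intro g
      rw [Finset.prod_mul_distrib,
        Finset.prod_ite_eq' univ a (fun a' => if g a' = β then (2 : ℤ) else 0),
        Finset.prod_ite_eq' univ b (fun a' => if g a' = β then (2 : ℤ) else 0)]
      simp [wt]
    simp only [h1] at h
    rw [h]
    have h2 : ∀ a' : A, ((if a' = a then (if true = β then (2 : ℤ) else 0) else 1) *
        (if a' = b then (if true = β then (2 : ℤ) else 0) else 1) +
        (if a' = a then (if false = β then (2 : ℤ) else 0) else 1) *
        (if a' = b then (if false = β then (2 : ℤ) else 0) else 1)) = 2 := by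
      intro a'
      by_cases h3 : a' = a
      · cases β <;> simp [h3, hab]
      · by_cases h4 : a' = b
        · cases β <;> simp [h4, Ne.symm hab]
        · simp [h3, h4]
    simp only [h2]
    simp [hab]

variable {m : ℕ}

/-- the colour of a word, as a weight -/
def wt2 (β : Bool) (v : Fin m → A) (c : Fin m → A → Bool) : ℤ := ∏ i, wt β (v i) (c i)

lemma wt2_eq (β : Bool) (v : Fin m → A) (c : Fin m → A → Bool) :
    wt2 β v c = if ∀ i, c i (v i) = β then 2 ^ m else 0 := by
  unfold wt2 wt
  split_ifs with h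
  · simp [h]
  · push Not at h
    obtain ⟨i, hi⟩ := h
    exact Finset.prod_eq_zero (mem_univ i) (by simp [hi])

lemma sum_pi (φ : Fin m → (A → Bool) → ℤ) :
    ∑ c : Fin m → A → Bool, ∏ i, φ i (c i) = ∏ i, ∑ g : A → Bool, φ i g := by
  rw [← Fintype.piFinset_univ, Finset.sum_prod_piFinset]

lemma sum_wt2 (β : Bool) (v : Fin m → A) :
    ∑ c : Fin m → A → Bool, wt2 β v c = (2 ^ Fintype.card A) ^ m := by
  unfold wt2
  rw [sum_pi]
  simp [sum_wt]

lemma sum_wt2_mul (β : Bool) (v v' : Fin m → A) :
    ∑ c : Fin m → A → Bool, wt2 β v c * wt2 β v' c =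
      (2 ^ Fintype.card A) ^ m * ∏ i, (if v i = v' i then 2 else 1) := by
  unfold wt2
  simp only [← Finset.prod_mul_distrib]
  rw [sum_pi (fun i g => wt β (v i) g * wt β (v' i) g)]
  simp only [sum_wt_mul, Finset.prod_mul_distrib]
  simp

lemma sum_eqs (v : Fin m → A) :
    ∑ v' : Fin m → A, ∏ i, (if v i = v' i then (2 : ℤ) else 1) = (Fintype.card A + 1) ^ m := by
  have h : ∑ v' : Fin m → A, ∏ i, (if v i = v' i then (2 : ℤ) else 1) =
      ∏ i : Fin m, ∑ a : A, (if v i = a then (2 : ℤ) else 1) := by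
    rw [← Fintype.piFinset_univ,
      Finset.sum_prod_piFinset univ (fun i a => if v i = a then (2 : ℤ) else 1)]
  rw [h]
  have h1 : ∀ i : Fin m, ∑ a : A, (if v i = a then (2 : ℤ) else 1) = Fintype.card A + 1 := by
    intro i
    have h2 : ∀ a : A, (if v i = a then (2 : ℤ) else 1) = 1 + (if v i = a then 1 else 0) := by
      intro a; split_ifs <;> norm_num
    simp only [h2, Finset.sum_add_distrib]
    simp
  simp [h1]

lemma pow_succ_bound {w : ℤ} (hw : 0 ≤ w) : ∀ m : ℕ, (2 * m : ℤ) ≤ w →
    ((w + 1) ^ m - w ^ m) * w ≤ 2 * m * w ^ m := by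
  intro m
  induction m with
  | zero => intro _; simp
  | succ k ih =>
    intro hk
    push_cast at hk ⊢
    have ih' := ih (by linarith)
    have h0 : 0 ≤ w ^ k := pow_nonneg hw k
    have h1 : (((w + 1) ^ (k + 1) - w ^ (k + 1)) * w) =
        (w + 1) * (((w + 1) ^ k - w ^ k) * w) + w ^ k * w := by ring
    rw [h1]
    have h2 : (w + 1) * (((w + 1) ^ k - w ^ k) * w) ≤ (w + 1) * (2 * k * w ^ k) :=
      mul_le_mul_of_nonneg_left ih' (by linarith)
    have h3 : (2 * (k : ℤ)) * w ^ k ≤ w * w ^ k := mul_le_mul_of_nonneg_right (by linarith) h0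
    have h4 : 2 * ((k : ℤ) + 1) * w ^ (k + 1) = 2 * ((k : ℤ) + 1) * (w ^ k * w) := by ring
    rw [h4]
    nlinarith

/-- The number of colourings that give no word of `D` the colour `β` at all positions. -/
theorem few_miss (β : Bool) (D : Finset (Fin m → A)) (q : ℕ)
    (hD : (Fintype.card A) ^ m ≤ D.card * 2 ^ q) (hw : m * 2 ^ (q + 3) ≤ Fintype.card A) :
    4 * (univ.filter fun c : Fin m → A → Bool => ∀ v ∈ D, ∃ i, c i (v i) ≠ β).card
      ≤ Fintype.card (Fin m → A → Bool) := by
  set w : ℕ := Fintype.card A with hwdef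
  rcases Nat.eq_zero_or_pos m with hm | hm
  · subst hm
    have hne : D.Nonempty := by
      rw [nonempty_iff_ne_empty]
      rintro rfl
      simp at hD
    obtain ⟨v, hv⟩ := hne
    have : (univ.filter fun c : Fin 0 → A → Bool => ∀ v ∈ D, ∃ i, c i (v i) ≠ β) = ∅ := by
      rw [filter_eq_empty_iff]
      intro c _ h
      obtain ⟨i, _⟩ := h v hv
      exact i.elim0
    rw [this]; simp
  have hw0 : 0 < w := by
    have : 0 < m * 2 ^ (q + 3) := by positivity
    omega
  set Z := univ.filter fun c : Fin m → A → Bool => ∀ v ∈ D, ∃ i, c i (v i) ≠ β with hZ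
  set Om : ℤ := (2 ^ w) ^ m with hOm
  have hOm0 : 0 < Om := by positivity
  have hcard : (Fintype.card (Fin m → A → Bool) : ℤ) = Om := by
    simp [hOm, hwdef]
  -- second moment
  set f : (Fin m → A → Bool) → ℤ := fun c => ∑ v ∈ D, wt2 β v c with hf
  have h1 : ∑ c, f c = Om * D.card := by
    rw [hf]
    simp only
    rw [Finset.sum_comm]
    simp only [sum_wt2]
    rw [Finset.sum_const, nsmul_eq_mul, mul_comm]
  have h2 : ∑ c, f c * f c = Om * ∑ v ∈ D, ∑ v' ∈ D, ∏ i, (if v i = v' i then (2 : ℤ) else 1) := by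
    rw [hf]
    simp only
    have : ∀ c : Fin m → A → Bool, (∑ v ∈ D, wt2 β v c) * (∑ v ∈ D, wt2 β v c) =
        ∑ v ∈ D, ∑ v' ∈ D, wt2 β v c * wt2 β v' c := by
      intro c
      rw [Finset.sum_mul_sum]
    simp only [this]
    rw [Finset.sum_comm, Finset.mul_sum]
    refine Finset.sum_congr rfl fun v _ => ?_
    rw [Finset.sum_comm, Finset.mul_sum]
    refine Finset.sum_congr rfl fun v' _ => ?_
    rw [sum_wt2_mul]
  have h3 : ∑ v ∈ D, ∑ v' ∈ D, ∏ i, (if v i = v' i then (2 : ℤ) else 1) ≤
      (D.card : ℤ) * D.card + D.card * (((w : ℤ) + 1) ^ m - (w : ℤ) ^ m) := by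
    have h4 : ∀ v : Fin m → A, ∑ v' ∈ D, ∏ i, (if v i = v' i then (2 : ℤ) else 1) ≤
        D.card + (((w : ℤ) + 1) ^ m - (w : ℤ) ^ m) := by
      intro v
      have h5 : ∑ v' ∈ D, (∏ i, (if v i = v' i then (2 : ℤ) else 1) - 1) ≤
          ∑ v' : Fin m → A, (∏ i, (if v i = v' i then (2 : ℤ) else 1) - 1) := by
        apply Finset.sum_le_sum_of_subset_of_nonneg (subset_univ _)
        intro v' _ _
        have : (1 : ℤ) ≤ ∏ i, (if v i = v' i then (2 : ℤ) else 1) := by
          rw [← Finset.prod_const_one (s := (univ : Finset (Fin m)))]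
          apply Finset.prod_le_prod
          · intro i _; norm_num
          · intro i _; split_ifs <;> norm_num
        linarith
      rw [Finset.sum_sub_distrib, Finset.sum_sub_distrib, sum_eqs] at h5
      have h6 : ∑ v' : Fin m → A, (1 : ℤ) = (w : ℤ) ^ m := by simp [hwdef]
      rw [h6] at h5
      have h7 : ∑ v' ∈ D, (1 : ℤ) = D.card := by simp
      rw [h7] at h5
      linarith
    calc ∑ v ∈ D, ∑ v' ∈ D, ∏ i, (if v i = v' i then (2 : ℤ) else 1)
        ≤ ∑ v ∈ D, ((D.card : ℤ) + (((w : ℤ) + 1) ^ m - (w : ℤ) ^ m)) :=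
          Finset.sum_le_sum fun v _ => h4 v
      _ = _ := by rw [Finset.sum_const, nsmul_eq_mul]; ring
  -- Chebyshev
  have h8 : ∑ c, (f c - D.card) * (f c - D.card) ≤
      Om * (D.card * (((w : ℤ) + 1) ^ m - (w : ℤ) ^ m)) := by
    have h9 : ∑ c, (f c - D.card) * (f c - D.card) =
        ∑ c, f c * f c - 2 * D.card * ∑ c, f c + D.card * D.card * Om := by
      have : ∀ c : Fin m → A → Bool, (f c - D.card) * (f c - D.card) =
          f c * f c - 2 * D.card * f c + D.card * D.card := by intro c; ring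
      simp only [this]
      rw [Finset.sum_add_distrib, Finset.sum_sub_distrib, ← Finset.mul_sum]
      congr 1
      rw [Finset.sum_const, nsmul_eq_mul, Finset.card_univ, hcard]
      ring
    rw [h9, h1, h2]
    have := mul_le_mul_of_nonneg_left h3 hOm0.le
    nlinarith
  have h10 : (Z.card : ℤ) * (D.card * D.card) ≤ ∑ c, (f c - D.card) * (f c - D.card) := by
    calc (Z.card : ℤ) * (D.card * D.card) = ∑ c ∈ Z, ((D.card : ℤ) * D.card) := by
          rw [Finset.sum_const, nsmul_eq_mul]
      _ ≤ ∑ c ∈ Z, (f c - D.card) * (f c - D.card) := by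
          apply Finset.sum_le_sum
          intro c hc
          rw [hZ, mem_filter] at hc
          have : f c = 0 := by
            rw [hf]
            simp only
            apply Finset.sum_eq_zero
            intro v hv
            rw [wt2_eq, if_neg]
            intro hall
            obtain ⟨i, hi⟩ := hc.2 v hv
            exact hi (hall i)
          rw [this]
          ring_nf
          exact le_rfl
      _ ≤ ∑ c, (f c - D.card) * (f c - D.card) :=
          Finset.sum_le_sum_of_subset_of_nonneg (subset_univ _) (fun c _ _ => mul_self_nonneg _)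
  -- conclusion
  have hDpos : 0 < (D.card : ℤ) := by
    have : 0 < D.card := by
      rcases Nat.eq_zero_or_pos D.card with h | h
      · rw [h] at hD
        have : 0 < w ^ m := by positivity
        omega
      · exact h
    exact_mod_cast this
  have h11 : (Z.card : ℤ) * D.card ≤ Om * (((w : ℤ) + 1) ^ m - (w : ℤ) ^ m) := by
    have h12 : ((Z.card : ℤ) * D.card) * D.card ≤
        (Om * (((w : ℤ) + 1) ^ m - (w : ℤ) ^ m)) * D.card := by
      calc ((Z.card : ℤ) * D.card) * D.card = (Z.card : ℤ) * (D.card * D.card) := by ring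
        _ ≤ _ := h10
        _ ≤ _ := h8
        _ = _ := by ring
    exact le_of_mul_le_mul_right h12 hDpos
  have hD' : ((w : ℤ)) ^ m ≤ D.card * 2 ^ q := by exact_mod_cast hD
  have hw' : (m : ℤ) * 2 ^ (q + 3) ≤ w := by exact_mod_cast hw
  have hwpos : (0 : ℤ) < w := by exact_mod_cast hw0
  have h2m : (2 * m : ℤ) ≤ w := by
    have h13 : (1 : ℤ) ≤ 2 ^ q := one_le_pow₀ (by norm_num)
    have h14 : (2 : ℤ) ^ (q + 3) = 8 * 2 ^ q := by ring
    rw [h14] at hw'
    have h15 : (0 : ℤ) ≤ m := by positivity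
    nlinarith
  have h16 := pow_succ_bound hwpos.le m h2m
  -- 4 Z ≤ Om
  have h17 : 4 * (Z.card : ℤ) * ((w : ℤ) ^ m * w) ≤ Om * ((w : ℤ) ^ m * w) := by
    calc 4 * (Z.card : ℤ) * ((w : ℤ) ^ m * w)
        ≤ 4 * (Z.card : ℤ) * ((D.card * 2 ^ q) * w) := by
          apply mul_le_mul_of_nonneg_left _ (by positivity)
          exact mul_le_mul_of_nonneg_right hD' hwpos.le
      _ = 4 * 2 ^ q * w * ((Z.card : ℤ) * D.card) := by ring
      _ ≤ 4 * 2 ^ q * w * (Om * (((w : ℤ) + 1) ^ m - (w : ℤ) ^ m)) :=
          mul_le_mul_of_nonneg_left h11 (by positivity)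
      _ = 4 * 2 ^ q * Om * ((((w : ℤ) + 1) ^ m - (w : ℤ) ^ m) * w) := by ring
      _ ≤ 4 * 2 ^ q * Om * (2 * m * (w : ℤ) ^ m) :=
          mul_le_mul_of_nonneg_left h16 (by positivity)
      _ = (m * 2 ^ (q + 3)) * (Om * (w : ℤ) ^ m) := by ring
      _ ≤ w * (Om * (w : ℤ) ^ m) := mul_le_mul_of_nonneg_right hw' (by positivity)
      _ = Om * ((w : ℤ) ^ m * w) := by ring
  have h18 : 4 * (Z.card : ℤ) ≤ Om :=
    le_of_mul_le_mul_right h17 (by positivity)
  rw [← hcard] at h18
  exact_mod_cast h18

end Pool.Agent.T9h97.Fork
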