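import Pool.Agent.T9h97.Fork.Frz

/-!
# The direct sum argument
-/

set_option autoImplicit false

namespace Pool.Agent.T9h97.Fork

open Finset Pool.Agent.H540R2
open scoped Classical

variable {n : ℕ}

/-- `Sep f Φ dd E`: whenever `x0` is below all inputs `g y` of a block and the rank `Φ` does not
grow from `x0` to the negative inputs of the block, a monotone formula of depth `dd` separates the
positive from the negative inputs of the block. -/
def Sep (f : (Fin n → Bool) → Bool) (Φ : (Fin n → Bool) → ℕ) (dd : ℕ) (E : Type) : Prop :=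
  ∀ (g : (E → Bool) → (Fin n → Bool)) (x0 : Fin n → Bool) (N P : (E → Bool) → Prop),
    (∀ v, (∃ e, ∀ y, g y v = y e) ∨ ∃ b, ∀ y, g y v = b) →
    (∀ y v, x0 v = true → g y v = true) → f x0 = false →
    (∀ z, N z → f (g z) = false ∧ ¬ Φ x0 < Φ (g z)) →
    (∀ z, P z → f (g z) = true) →
    ∃ h, MF dd h ∧ (∀ z, P z → h z = true) ∧ ∀ z, N z → h z = false

/-- the input that consists of the blocks `w β` -/
noncomputable def asm {M : ℕ} {E : Type} (emb : Fin M → E → Fin n) (w : Fin M → E → Bool) :
    Fin n → Bool := fun v => decide (∃ β e, emb β e = v ∧ w β e = true)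

theorem core {A : Type} [Fintype A] {M L k b dd : ℕ} {f : (Fin n → Bool) → Bool}
    {Φ : (Fin n → Bool) → ℕ} (hS : Sep f Φ dd (Fin L × A × A)) (hb : 1 ≤ b)
    (hw : 2 ^ k * 2 ^ (2 * b + 4) ≤ Fintype.card A) (hd : dd ≤ k * (b - 1)) (hL : L = 2 ^ k + 1)
    (a0 a1 : A) (ha : a1 ≠ a0) (emb : Fin M → Fin L × A × A → Fin n)
    (hinj : ∀ β e β' e', emb β e = emb β' e' → β = β' ∧ e = e')
    (hneg : ∀ w, (∀ γ, (∃ x : Fin (2 ^ k) → A, w γ = cut (wrd a0 a0 x)) ∨ w γ = fun _ => false) →
      f (asm emb w) = false)
    (hpos : ∀ w β (x : Fin (2 ^ k) → A), w β = pth (wrd a0 a1 x) → f (asm emb w) = true) :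
    ∃ x, M ≤ Φ x := by
  obtain ⟨w, -, h⟩ := hybrid (asm emb) (fun _ => false)
    (fun z => ∃ x : Fin (2 ^ k) → A, z = cut (wrd a0 a0 x)) Φ (by
      intro w β hw' hβ
      by_contra hcon
      push Not at hcon
      set g : ((Fin L × A × A → Bool) → (Fin n → Bool)) := fun y =>
        asm emb (Function.update w β y) with hgdef
      obtain ⟨h, hMF, hP, hN⟩ := hS g (asm emb w)
        (fun z => ∃ x : Fin (2 ^ k) → A, z = cut (wrd a0 a0 x))
        (fun z => ∃ x : Fin (2 ^ k) → A, z = pth (wrd a0 a1 x)) (by
          intro v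
          by_cases hv : ∃ e, emb β e = v
          · obtain ⟨e, rfl⟩ := hv
            left
            refine ⟨e, fun y => ?_⟩
            rw [hgdef, Bool.eq_iff_iff]
            simp only [asm, decide_eq_true_eq]
            constructor
            · rintro ⟨γ, e', h1, h2⟩
              obtain ⟨rfl, rfl⟩ := hinj _ _ _ _ h1
              rwa [Function.update_self] at h2
            · intro h1
              exact ⟨β, e, rfl, by rwa [Function.update_self]⟩
          · right
            refine ⟨decide (∃ γ e, emb γ e = v ∧ w γ e = true), fun y => ?_⟩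
            rw [hgdef, Bool.eq_iff_iff]
            simp only [asm, decide_eq_true_eq]
            constructor
            · rintro ⟨γ, e', h1, h2⟩
              have hγ : γ ≠ β := by
                rintro rfl
                exact hv ⟨e', h1⟩
              rw [Function.update_of_ne hγ] at h2
              exact ⟨γ, e', h1, h2⟩
            · rintro ⟨γ, e', h1, h2⟩
              have hγ : γ ≠ β := by
                rintro rfl
                exact hv ⟨e', h1⟩
              exact ⟨γ, e', h1, by rwa [Function.update_of_ne hγ]⟩)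
        (by
          intro y v hv
          rw [hgdef]
          simp only [asm, decide_eq_true_eq] at hv ⊢
          obtain ⟨γ, e, h1, h2⟩ := hv
          have hγ : γ ≠ β := by
            rintro rfl
            rw [hβ] at h2
            exact absurd h2 (by simp)
          exact ⟨γ, e, h1, by rwa [Function.update_of_ne hγ]⟩)
        (hneg w hw')
        (by
          intro z hz
          refine ⟨hneg _ ?_, not_lt.2 (hcon z hz)⟩
          intro γ
          by_cases hγ : γ = β
          · subst hγ
            rw [Function.update_self]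
            exact Or.inl hz
          · rw [Function.update_of_ne hγ]
            exact hw' γ)
        (by
          rintro z ⟨x, rfl⟩
          exact hpos _ β x (Function.update_self _ _ _))
      exact no_sep hb hw hd hL a0 a1 a0 ha h hMF (fun x => hP _ ⟨x, rfl⟩)
        (fun x => hN _ ⟨x, rfl⟩))
  exact ⟨_, h⟩

/-- the input of a NOT gate -/
def inp (D : Circuit n) (i : ℕ) : Node n :=
  match D.gate i with
  | .not a => a
  | _ => .const false

lemma inp_spec {D : Circuit n} {i : ℕ} (hi : i < D.size) (hn : (D.gate i).isNot = true) :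
    (∀ j, (inp D i).wires j ≠ 0 → j < D.size) ∧
      D.gateDepth i = (inp D i).depth D.gateDepth + 1 ∧
      lev D i = (inp D i).depth (lev D) + 1 ∧
      ∀ x, D.val x i = !((inp D i).eval x (D.val x)) := by
  obtain ⟨a, h0, h⟩ := not_input hi hn
  have : inp D i = a := by simp [inp, h0]
  rw [this]
  exact h

/-- Circuits with NOT gates have the separation property, for the rank given by the values of the
NOT gates. -/
theorem sep_nots {D : Circuit n} {d a : ℕ} (hd : D.depth ≤ d) (hT : (Rel D d).card ≤ 2 ^ a)
    (E : Type) : Sep D.eval (rank D d) (d + a + 1) E := by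
  intro g x0 N P hg hx0 _ hN hP
  set ν := D.val x0 with hν
  set T := (Rel D d).filter fun i => ν i = true with hTdef
  have hTcard : T.card ≤ 2 ^ a := (card_le_card (filter_subset _ _)).trans hT
  have hag : ∀ z, N z → ∀ i ∈ Rel D d, ν i = D.val (g z) i := by
    intro z hz i hi
    by_contra hne
    exact (hN z hz).2 (rank_lt_rank (hx0 z) ⟨i, hi, hne⟩)
  have hout : ∀ x, Rt D ν x D.depth (D.out.depth (lev D)) →
      D.out.eval x (fz D ν x) = D.eval x := fun x hx => node_fz_eq D.out_lt hx
  refine ⟨fun y => D.out.eval (g y) (fz D ν (g y)) ||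
    decide (∃ i ∈ T, (inp D i).eval (g y) (fz D ν (g y)) = true), ?_, ?_, ?_⟩
  · refine MF.or ?_ ?_
    · exact ((node_fz_MF D ν D.out_lt).subst g hg).mono
        (show D.out.depth D.gateDepth ≤ d + a from le_trans hd (Nat.le_add_right _ _))
    · refine MF.any (fun i y => (inp D i).eval (g y) (fz D ν (g y))) a T hTcard fun i hi => ?_
      obtain ⟨h1, h2, h3⟩ := mem_Rel.1 (mem_filter.1 hi).1
      obtain ⟨h4, h5, -, -⟩ := inp_spec h1 h2
      exact ((node_fz_MF D ν h4).subst g hg).mono (by omega)
  · intro z hz
    rw [Bool.or_eq_true, decide_eq_true_eq]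
    by_cases hall : ∀ i ∈ Rel D d, ν i = D.val (g z) i
    · left
      rw [hout (g z) fun j hj hn h1 _ => hall j (mem_Rel.2 ⟨hj, hn, h1.trans hd⟩)]
      exact hP z hz
    · right
      push Not at hall
      obtain ⟨i, hi, hmin⟩ := Finset.exists_min_image ((Rel D d).filter fun i =>
        ν i ≠ D.val (g z) i) (lev D) (by
          obtain ⟨i, hi, h'⟩ := hall
          exact ⟨i, mem_filter.2 ⟨hi, h'⟩⟩)
      rw [mem_filter] at hi
      have hagr : ∀ j ∈ Rel D d, lev D j < lev D i → ν j = D.val (g z) j := by
        intro j hj hlt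
        by_contra hne
        exact absurd (hmin j (mem_filter.2 ⟨hj, hne⟩)) (not_le.2 hlt)
      have h3 := first_change (hx0 z) hi.1 hagr
      have hνi : ν i = true := by
        cases hx : ν i with
        | true => rfl
        | false => exact absurd (hx.trans (h3 hx).symm) hi.2
      have hgi : D.val (g z) i = false := by
        cases hy : D.val (g z) i with
        | false => rfl
        | true => exact absurd (hνi.trans hy.symm) hi.2
      obtain ⟨h1, h2, h4⟩ := mem_Rel.1 hi.1
      obtain ⟨h5, h6, h7, h8⟩ := inp_spec h1 h2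
      refine ⟨i, mem_filter.2 ⟨hi.1, hνi⟩, ?_⟩
      rw [node_fz_eq h5 fun j hj hn h9 h10 => hagr j (mem_Rel.2 ⟨hj, hn, by omega⟩) (by omega)]
      rw [h8] at hgi
      simpa using hgi
  · intro z hz
    have hall := hag z hz
    rw [Bool.or_eq_false_iff]
    constructor
    · rw [hout (g z) fun j hj hn h1 _ => hall j (mem_Rel.2 ⟨hj, hn, h1.trans hd⟩)]
      exact (hN z hz).1
    · rw [decide_eq_false_iff_not]
      rintro ⟨i, hi, h⟩
      rw [mem_filter] at hi
      obtain ⟨h1, h2, h4⟩ := mem_Rel.1 hi.1
      obtain ⟨h5, h6, h7, h8⟩ := inp_spec h1 h2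
      rw [node_fz_eq h5 fun j hj hn h9 h10 => hall j (mem_Rel.2 ⟨hj, hn, by omega⟩)] at h
      have h9 := hall i hi.1
      rw [hi.2, h8, h] at h9
      exact absurd h9 (by simp)

end Pool.Agent.T9h97.Fork
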