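import Pool.Agent.T9h97.Fork.Gen

/-!
# The hard function

`C` computes the disjunction, over all scales `b = 1, 2, ...`, of `n / 2 ^ (8 b + 9)` disjoint
copies of connectivity in the layered graph with `2 ^ b + 2` layers of `2 ^ (3 b + 4)` vertices.
-/

set_option autoImplicit false

namespace Pool.Agent.T9h97.Fork

open Finset Pool.Agent.H540R2
open scoped Classical

/-- the number of layers minus one -/
def LL (b : ℕ) : ℕ := 2 ^ b + 1

/-- the vertices of a layer -/
abbrev AA (b : ℕ) : Type := Fin (2 ^ (3 * b + 4))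

/-- the edges -/
abbrev EE (b : ℕ) : Type := Fin (LL b) × AA b × AA b

/-- the number of blocks -/
def nb (n b : ℕ) : ℕ := n / 2 ^ (8 * b + 9)

/-- the blocks -/
abbrev BB (n : ℕ) : Type := Σ b : Fin n, Fin (nb n (b + 1))

/-- the variables -/
abbrev VV (n : ℕ) : Type := Σ p : BB n, EE (p.1 + 1)

lemma card_EE (b : ℕ) : Fintype.card (EE b) * 2 ^ b ≤ 2 ^ (8 * b + 9) := by
  have h1 : Fintype.card (EE b) = (2 ^ b + 1) * (2 ^ (3 * b + 4) * 2 ^ (3 * b + 4)) := by
    rw [Fintype.card_prod, Fintype.card_prod, Fintype.card_fin, Fintype.card_fin]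
    rfl
  have h2 : 2 ^ b + 1 ≤ 2 ^ (b + 1) := by
    have : 1 ≤ 2 ^ b := Nat.one_le_two_pow
    rw [pow_succ]
    omega
  calc Fintype.card (EE b) * 2 ^ b
      ≤ (2 ^ (b + 1) * (2 ^ (3 * b + 4) * 2 ^ (3 * b + 4))) * 2 ^ b := by
        rw [h1]
        exact Nat.mul_le_mul_right _ (Nat.mul_le_mul_right _ h2)
    _ = 2 ^ (8 * b + 9) := by
        rw [← pow_add, ← pow_add, ← pow_add]
        congr 1
        ring

lemma nb_card (n b : ℕ) : nb n b * Fintype.card (EE b) ≤ n / 2 ^ b := by
  rw [Nat.le_div_iff_mul_le (by positivity), mul_assoc]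
  exact (Nat.mul_le_mul_left _ (card_EE b)).trans (Nat.div_mul_le_self _ _)

lemma geom (n m : ℕ) : ∑ b ∈ range m, n / 2 ^ (b + 1) + n / 2 ^ m ≤ n := by
  induction m with
  | zero => simp
  | succ m ih =>
    rw [sum_range_succ]
    have h1 : n / 2 ^ (m + 1) = n / 2 ^ m / 2 := by
      rw [pow_succ, Nat.div_div_eq_div_mul]
    omega

lemma sum_blocks (n : ℕ) : ∑ b : Fin n, nb n (b + 1) * Fintype.card (EE (b + 1)) ≤ n := by
  have h1 : ∑ b : Fin n, nb n (b + 1) * Fintype.card (EE (b + 1)) ≤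
      ∑ b : Fin n, n / 2 ^ (b.1 + 1) := Finset.sum_le_sum fun b _ => nb_card n (b + 1)
  rw [Fin.sum_univ_eq_sum_range (fun b => n / 2 ^ (b + 1)) n] at h1
  have h2 := geom n n
  exact h1.trans (le_trans (Nat.le_add_right _ _) h2)

lemma card_VV (n : ℕ) : Fintype.card (VV n) ≤ n := by
  refine le_trans (le_of_eq ?_) (sum_blocks n)
  rw [Fintype.card_sigma, Fintype.sum_sigma]
  refine Finset.sum_congr rfl fun b _ => ?_
  have h : ∑ y : Fin (nb n (b + 1)), Fintype.card (EE (b + 1)) =
      nb n (b + 1) * Fintype.card (EE (b + 1)) := by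
    rw [Finset.sum_const, card_univ, Fintype.card_fin, smul_eq_mul]
  exact h

/-- the variables are inputs -/
noncomputable def em (n : ℕ) : VV n ↪ Fin n :=
  Classical.choice (Function.Embedding.nonempty_of_card_le (by simpa using card_VV n))

/-- the source -/
def s0 (b : ℕ) : AA b := ⟨0, by positivity⟩

/-- the target -/
def s1 (b : ℕ) : AA b := ⟨1, Nat.one_lt_two_pow (by omega)⟩

/-- the block function -/
noncomputable def blk (n : ℕ) (p : BB n) (x : Fin n → Bool) : Bool :=
  reach (fun e : EE (p.1 + 1) => x (em n ⟨p, e⟩)) (s0 _) (LL (p.1 + 1)) (s1 _)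

/-- the function -/
noncomputable def fn (n : ℕ) (x : Fin n → Bool) : Bool :=
  decide (∃ p ∈ (univ : Finset (BB n)), blk n p x = true)

/-- a small monotone circuit -/
theorem circuit (n : ℕ) : ∃ C : Circuit n, C.Monotone ∧ C.size ≤ 3 * n ∧ ∀ x, C.eval x = fn n x := by
  have h1 := Gen.any (n := n) (univ : Finset (BB n)) (blk n)
    (fun p => 2 * Fintype.card (EE (p.1 + 1))) (fun p _ => by
      have h := gen_reach (n := n) (fun e : EE (p.1 + 1) => em n ⟨p, e⟩) (s0 _)
        (LL (p.1 + 1)) le_rfl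
      refine h.mono (le_of_eq ?_) (fun f hf => hf) ?_
      · simp only [EE, Fintype.card_prod, Fintype.card_fin]
        ring
      · rintro g rfl
        exact ⟨s1 _, rfl⟩)
  obtain ⟨P, _, hm, hs, hP⟩ := h1 (Circuit.empty n) (fun i hi => absurd hi (Nat.not_lt_zero i))
    (by simp)
  obtain ⟨a, ha, hv⟩ := hP _ rfl
  refine ⟨P.setOut a ha, fun i hi => hm i hi, ?_, fun x => ?_⟩
  · show P.size ≤ 3 * n
    have h0 : (Circuit.empty n).size = 0 := rfl
    have h2 : ∑ p : BB n, (2 * Fintype.card (EE (p.1 + 1)) + 1) ≤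
        ∑ p : BB n, 3 * Fintype.card (EE (p.1 + 1)) := by
      refine Finset.sum_le_sum fun p _ => ?_
      have : 0 < Fintype.card (EE (p.1 + 1)) := by
        rw [Fintype.card_pos_iff]
        exact ⟨⟨⟨0, Nat.succ_pos _⟩, s0 _, s0 _⟩⟩
      omega
    rw [← Finset.mul_sum] at h2
    have h3 : ∑ p : BB n, Fintype.card (EE (p.1 + 1)) = Fintype.card (VV n) := by
      rw [Fintype.card_sigma]
    rw [h3] at h2
    have := card_VV n
    omega
  · rw [Circuit.setOut_eval, hv]
    rfl

section blocks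

variable {b : ℕ}

lemma wrd_zero' {A : Type} {k : ℕ} (a a' : A) (x : Fin (2 ^ k) → A) : wrd a a' x 0 = a := by
  simp [wrd]

lemma reach_pth (a a' : AA b) (x : Fin (2 ^ b) → AA b) :
    reach (pth (L := LL b) (wrd a a' x)) a (LL b) a' = true := by
  unfold reach
  rw [decide_eq_true_eq]
  refine ⟨wrd a a' x, wrd_zero _ _ _, wrd_last _ _ _ (by unfold LL; omega), fun j h _ => ?_⟩
  simp [pth]

lemma reach_cut (a : AA b) (x : Fin (2 ^ b) → AA b) (a' : AA b) (ha : a' ≠ a) :
    reach (cut (L := LL b) (wrd a a x)) a (LL b) a' = false := by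
  unfold reach
  rw [decide_eq_false_iff_not]
  rintro ⟨X, h1, h2, h3⟩
  have key : ∀ i ≤ LL b, X i = wrd a a x i := by
    intro i
    induction i with
    | zero => intro _; rw [h1, wrd_zero]
    | succ i ih =>
      intro hi
      have h4 := h3 i hi hi
      simp only [cut, ih (by omega)] at h4
      by_contra hne
      simp [hne] at h4
  have h5 := key (LL b) le_rfl
  rw [h2, wrd_last _ _ _ (by unfold LL; omega)] at h5
  exact ha h5

lemma reach_false (a a' : AA b) :
    reach (fun _ : EE b => false) a (LL b) a' = false := by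
  unfold reach
  rw [decide_eq_false_iff_not]
  rintro ⟨X, h1, h2, h3⟩
  have := h3 0 (Nat.succ_pos _) (Nat.succ_pos _)
  exact absurd this (by simp)

end blocks

/-- The direct sum theorem for the function `fn n`. -/
theorem fn_sep {n b dd : ℕ} {f : (Fin n → Bool) → Bool} (hf : ∀ x, f x = fn n x)
    {Φ : (Fin n → Bool) → ℕ} (hb : 1 ≤ b) (hd : dd ≤ b * (b - 1))
    (hS : Sep f Φ dd (EE b)) : ∃ x, n / 2 ^ (8 * b + 9) ≤ Φ x := by
  rcases Nat.eq_zero_or_pos (n / 2 ^ (8 * b + 9)) with h0 | hpos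
  · exact ⟨fun _ => false, by rw [h0]; exact Nat.zero_le _⟩
  have hbn : b - 1 < n := by
    have h1 : 2 ^ (8 * b + 9) ≤ n := by
      by_contra hcon
      rw [Nat.div_eq_of_lt (not_le.1 hcon)] at hpos
      exact absurd hpos (lt_irrefl _)
    have h2 : 8 * b + 9 < 2 ^ (8 * b + 9) := Nat.lt_two_pow_self
    omega
  obtain ⟨b', rfl⟩ : ∃ b', b = b' + 1 := ⟨b - 1, by omega⟩
  rw [Nat.add_sub_cancel] at hbn
  have hcard : Fintype.card (AA (b' + 1)) = 2 ^ (3 * (b' + 1) + 4) := by simp
  change ∃ x, nb n (b' + 1) ≤ Φ x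
  refine core (A := AA (b' + 1)) (M := nb n (b' + 1)) (L := LL (b' + 1))
    (k := b' + 1) (b := b' + 1) hS hb ?_ hd rfl (s0 _) (s1 _) ?_
    (fun β e => em n ⟨⟨⟨b', hbn⟩, β⟩, e⟩) ?_ ?_ ?_
  · rw [hcard, ← pow_add]
    exact Nat.pow_le_pow_right (by norm_num) (by omega)
  · simp [s0, s1]
  · intro β e β' e' h
    have h1 := (em n).injective h
    simp only [Sigma.mk.injEq, true_and] at h1
    obtain ⟨h2, h3⟩ := h1
    have h2' : β = β' := by
      simp only [Sigma.mk.injEq, heq_eq_eq, true_and] at h2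
      exact h2
    subst h2'
    exact ⟨rfl, by simpa using h3⟩
  · intro w hw
    rw [hf, fn, decide_eq_false_iff_not]
    rintro ⟨⟨⟨c, hc⟩, γ⟩, -, h⟩
    by_cases hcb : c = b'
    · subst hcb
      have e1 : (fun e : EE (c + 1) => asm (fun β e => em n ⟨⟨⟨c, hbn⟩, β⟩, e⟩) w
          (em n ⟨⟨⟨c, hc⟩, γ⟩, e⟩)) = w γ := by
        funext e
        rw [Bool.eq_iff_iff]
        simp only [asm, decide_eq_true_eq]
        constructor
        · rintro ⟨β, e', h1, h2⟩
          have h3 := (em n).injective h1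
          simp only [Sigma.mk.injEq, true_and] at h3
          obtain ⟨h4, h5⟩ := h3
          have h4' : β = γ := by
            simp only [Sigma.mk.injEq, heq_eq_eq, true_and] at h4
            exact h4
          subst h4'
          have h5' : e' = e := by simpa using h5
          rwa [← h5']
        · intro h1
          exact ⟨γ, e, rfl, h1⟩
      have h : reach (fun e : EE (c + 1) => asm (fun β e => em n ⟨⟨⟨c, hbn⟩, β⟩, e⟩) w
          (em n ⟨⟨⟨c, hc⟩, γ⟩, e⟩)) (s0 _) (LL (c + 1)) (s1 _) = true := h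
      rw [e1] at h
      rcases hw γ with ⟨x, hx⟩ | hx
      · rw [hx, reach_cut _ _ _ (by simp [s0, s1])] at h
        exact absurd h (by simp)
      · rw [hx] at h
        have := reach_false (b := c + 1) (s0 _) (s1 _)
        rw [this] at h
        exact absurd h (by simp)
    · have e1 : (fun e : EE (c + 1) => asm (fun β e => em n ⟨⟨⟨b', hbn⟩, β⟩, e⟩) w
          (em n ⟨⟨⟨c, hc⟩, γ⟩, e⟩)) = fun _ => false := by
        funext e
        simp only [asm, decide_eq_false_iff_not]
        rintro ⟨β, e', h1, h2⟩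
        have h3 := (em n).injective h1
        have h4 := congrArg (fun q : VV n => q.1.1.1) h3
        exact hcb h4.symm
      have h : reach (fun e : EE (c + 1) => asm (fun β e => em n ⟨⟨⟨b', hbn⟩, β⟩, e⟩) w
          (em n ⟨⟨⟨c, hc⟩, γ⟩, e⟩)) (s0 _) (LL (c + 1)) (s1 _) = true := h
      rw [e1] at h
      have := reach_false (b := c + 1) (s0 _) (s1 _)
      rw [this] at h
      exact absurd h (by simp)
  · intro w β x hx
    rw [hf, fn, decide_eq_true_eq]
    refine ⟨⟨⟨b', hbn⟩, β⟩, mem_univ _, ?_⟩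
    have e1 : (fun e : EE (b' + 1) => asm (fun β e => em n ⟨⟨⟨b', hbn⟩, β⟩, e⟩) w
        (em n ⟨⟨⟨b', hbn⟩, β⟩, e⟩)) = w β := by
      funext e
      rw [Bool.eq_iff_iff]
      simp only [asm, decide_eq_true_eq]
      constructor
      · rintro ⟨β', e', h1, h2⟩
        have h3 := (em n).injective h1
        simp only [Sigma.mk.injEq, true_and] at h3
        obtain ⟨h4, h5⟩ := h3
        have h4' : β' = β := by
          simp only [Sigma.mk.injEq, heq_eq_eq, true_and] at h4
          exact h4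
        subst h4'
        have h5' : e' = e := by simpa using h5
        rwa [← h5']
      · intro h1
        exact ⟨β, e, rfl, h1⟩
    show reach (fun e : EE (b' + 1) => asm (fun β e => em n ⟨⟨⟨b', hbn⟩, β⟩, e⟩) w
        (em n ⟨⟨⟨b', hbn⟩, β⟩, e⟩)) (s0 _) (LL (b' + 1)) (s1 _) = true
    rw [e1, hx]
    exact reach_pth _ _ _

end Pool.Agent.T9h97.Fork
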