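import Pool.Agent.T9h97.Fork.Wit

/-!
# A function with a disjunctive and a conjunctive part
-/

set_option autoImplicit false

namespace Pool.Agent.T9h97.Fork

open Finset Pool.Agent.H540R2
open scoped Classical

/-- the variables are inputs -/
noncomputable def em2 (n : ℕ) : Bool × VV (n / 2) ↪ Fin n :=
  Classical.choice (Function.Embedding.nonempty_of_card_le (by
    rw [Fintype.card_prod, Fintype.card_bool, Fintype.card_fin]
    have := card_VV (n / 2)
    omega))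

/-- the block function -/
noncomputable def blk2 (n : ℕ) (c : Bool) (p : BB (n / 2)) (x : Fin n → Bool) : Bool :=
  reach (fun e : EE (p.1 + 1) => x (em2 n (c, ⟨p, e⟩))) (s0 _) (LL (p.1 + 1)) (s1 _)

/-- the scales with at least one block -/
noncomputable def scales (n : ℕ) : Finset (Fin (n / 2)) :=
  univ.filter fun b => 0 < nb (n / 2) (b + 1)

/-- the function -/
noncomputable def fn2 (n : ℕ) (x : Fin n → Bool) : Bool :=
  decide ((∃ p : BB (n / 2), blk2 n false p x = true) ∨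
    ∃ b ∈ scales n, ∀ β : Fin (nb (n / 2) (b + 1)), blk2 n true ⟨b, β⟩ x = true)

lemma fn2_iff (n : ℕ) (x : Fin n → Bool) : fn2 n x = true ↔
    (∃ p : BB (n / 2), blk2 n false p x = true) ∨
      ∃ b ∈ scales n, ∀ β : Fin (nb (n / 2) (b + 1)), blk2 n true ⟨b, β⟩ x = true :=
  decide_eq_true_iff

/-- a conjunction of functions, each of which has a small circuit -/
lemma Gen.all {n : ℕ} {ι : Type} (s : Finset ι) (h : ι → (Fin n → Bool) → Bool) (c : ι → ℕ)
    (hh : ∀ i ∈ s, Gen (c i) (fun _ => False) (fun g => g = h i)) :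
    Gen (∑ i ∈ s, (c i + 1)) (fun _ => False)
      (fun g => g = fun x => decide (∀ i ∈ s, h i x = true)) := by
  induction s using Finset.induction_on with
  | empty =>
    intro P hP _
    refine ⟨P, Circuit.Ext.refl P, hP, Nat.le_add_right _ _, ?_⟩
    rintro g rfl
    have : (fun x : Fin n → Bool => decide (∀ i ∈ (∅ : Finset ι), h i x = true)) =
        fun _ => true := by funext x; simp
    rw [this]
    exact Has.const P true
  | insert i s hi ih =>
    intro P hP hF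
    obtain ⟨P1, e1, m1, s1, g1⟩ := ih (fun j hj => hh j (mem_insert_of_mem hj)) P hP hF
    obtain ⟨P2, e2, m2, s2, g2⟩ := hh i (mem_insert_self i s) P1 m1 (by simp)
    obtain ⟨P3, e3, m3, s3, g3⟩ := Has.and_gate m2 (g2 _ rfl) ((g1 _ rfl).ext e2)
    refine ⟨P3, (e1.trans e2).trans e3, m3, ?_, ?_⟩
    · rw [sum_insert hi]
      omega
    · rintro g rfl
      have e : (fun x => decide (∀ j ∈ insert i s, h j x = true)) =
          fun x => h i x && decide (∀ j ∈ s, h j x = true) := by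
        funext x
        rw [Bool.eq_iff_iff]
        simp only [decide_eq_true_eq, Bool.and_eq_true, mem_insert, forall_eq_or_imp]
      rw [e]
      exact g3

lemma Gen.all_ex {n : ℕ} {ι : Type} (s : Finset ι) (h : ι → (Fin n → Bool) → Bool) (c : ι → ℕ)
    (hh : ∀ i ∈ s, Gen (c i) (fun _ => False) (fun g => g = h i)) :
    ∃ g₀ : (Fin n → Bool) → Bool, Gen (∑ i ∈ s, (c i + 1)) (fun _ => False) (fun g => g = g₀) ∧
      ∀ x, g₀ x = true ↔ ∀ i ∈ s, h i x = true :=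
  ⟨_, Gen.all s h c hh, fun _ => decide_eq_true_iff⟩

lemma Gen.any_ex {n : ℕ} {ι : Type} (s : Finset ι) (h : ι → (Fin n → Bool) → Bool) (c : ι → ℕ)
    (hh : ∀ i ∈ s, Gen (c i) (fun _ => False) (fun g => g = h i)) :
    ∃ g₀ : (Fin n → Bool) → Bool, Gen (∑ i ∈ s, (c i + 1)) (fun _ => False) (fun g => g = g₀) ∧
      ∀ x, g₀ x = true ↔ ∃ i ∈ s, h i x = true :=
  ⟨_, Gen.any s h c hh, fun _ => decide_eq_true_iff⟩

lemma gen_blk2 (n : ℕ) (c : Bool) (p : BB (n / 2)) :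
    Gen (2 * Fintype.card (EE (p.1 + 1))) (fun _ => False) (fun g => g = blk2 n c p) := by
  have h := gen_reach (n := n) (fun e : EE (p.1 + 1) => em2 n (c, ⟨p, e⟩)) (s0 _)
    (LL (p.1 + 1)) le_rfl
  refine h.mono (le_of_eq ?_) (fun f hf => hf) ?_
  · simp only [EE, Fintype.card_prod, Fintype.card_fin]
    ring
  · rintro g rfl
    exact ⟨s1 _, rfl⟩

lemma card_EE_ge (b : ℕ) : 4 ≤ Fintype.card (EE b) := by
  have h1 : Fintype.card (EE b) = (2 ^ b + 1) * (2 ^ (3 * b + 4) * 2 ^ (3 * b + 4)) := by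
    rw [Fintype.card_prod, Fintype.card_prod, Fintype.card_fin, Fintype.card_fin]
    rfl
  rw [h1]
  have h2 : 1 ≤ 2 ^ b + 1 := Nat.le_add_left _ _
  have h3 : 2 ^ 4 ≤ 2 ^ (3 * b + 4) := Nat.pow_le_pow_right (by norm_num) (by omega)
  calc 4 ≤ 1 * (2 ^ 4 * 2 ^ 4) := by norm_num
    _ ≤ _ := Nat.mul_le_mul h2 (Nat.mul_le_mul h3 h3)

lemma sum_BB (n : ℕ) : ∑ p : BB n, Fintype.card (EE (p.1 + 1)) ≤ n := by
  have h3 : ∑ p : BB n, Fintype.card (EE (p.1 + 1)) = Fintype.card (VV n) := by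
    rw [Fintype.card_sigma]
  rw [h3]
  exact card_VV n

/-- a small monotone circuit -/
theorem circuit2 (n : ℕ) : ∃ C : Circuit n, C.Monotone ∧ C.size ≤ 3 * n ∧
    ∀ x, C.eval x = fn2 n x := by
  rcases Nat.eq_zero_or_pos n with hn0 | hn0
  · subst hn0
    refine ⟨Circuit.empty 0, fun i hi => absurd hi (Nat.not_lt_zero i), le_rfl, fun x => ?_⟩
    have h1 : (Circuit.empty 0).eval x = false := rfl
    rw [h1]
    symm
    rw [Bool.eq_false_iff]
    intro h2
    rcases (fn2_iff 0 x).1 h2 with ⟨⟨b, _⟩, _⟩ | ⟨b, _⟩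
    · exact b.elim0
    · exact b.elim0
  obtain ⟨f1, h1, f1s⟩ := Gen.any_ex (n := n) (univ : Finset (BB (n / 2))) (blk2 n false)
    (fun p => 2 * Fintype.card (EE (p.1 + 1))) (fun p _ => gen_blk2 n false p)
  have h2 : ∀ b : Fin (n / 2), ∃ g₀ : (Fin n → Bool) → Bool,
      Gen (∑ _β : Fin (nb (n / 2) (b + 1)),
      (2 * Fintype.card (EE (b + 1)) + 1)) (fun _ => False) (fun g => g = g₀) ∧
      ∀ x, g₀ x = true ↔ ∀ β ∈ (univ : Finset (Fin (nb (n / 2) (b + 1)))),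
        blk2 n true ⟨b, β⟩ x = true := fun b =>
    Gen.all_ex (n := n) (univ : Finset (Fin (nb (n / 2) (b + 1)))) (fun β => blk2 n true ⟨b, β⟩)
      (fun _ => 2 * Fintype.card (EE (b + 1))) (fun β _ => gen_blk2 n true ⟨b, β⟩)
  choose f2 h2 f2s using h2
  obtain ⟨f3, h3, f3s⟩ := Gen.any_ex (n := n) (scales n) f2
    (fun b => ∑ _β : Fin (nb (n / 2) (b + 1)), (2 * Fintype.card (EE (b + 1)) + 1))
    (fun b _ => h2 b)
  obtain ⟨P1, e1, m1, z1, g1⟩ := h1 (Circuit.empty n) (fun i hi => absurd hi (Nat.not_lt_zero i))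
    (by simp)
  obtain ⟨P2, e2, m2, z2, g2⟩ := h3 P1 m1 (by simp)
  obtain ⟨P, e, hm, hs, hP⟩ := Has.or_gate m2 ((g1 _ rfl).ext e2) (g2 _ rfl)
  obtain ⟨a, ha, hv⟩ := hP
  refine ⟨P.setOut a ha, fun i hi => hm i hi, ?_, fun x => ?_⟩
  · show P.size ≤ 3 * n
    have h0 : (Circuit.empty n).size = 0 := rfl
    rw [h0] at z1
    have hsum := sum_BB (n / 2)
    have h4 : ∑ p : BB (n / 2), (2 * Fintype.card (EE (p.1 + 1)) + 1) ≤
        ∑ p : BB (n / 2), 3 * Fintype.card (EE (p.1 + 1)) := by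
      refine Finset.sum_le_sum fun p _ => ?_
      have := card_EE_ge (p.1 + 1)
      omega
    have h5 : ∑ b ∈ scales n, (∑ _β : Fin (nb (n / 2) (b + 1)),
        (2 * Fintype.card (EE (b + 1)) + 1) + 1) ≤
        ∑ p : BB (n / 2), (2 * Fintype.card (EE (p.1 + 1)) + 2) := by
      rw [Fintype.sum_sigma]
      refine le_trans (Finset.sum_le_sum (g := fun b : Fin (n / 2) =>
        ∑ _β : Fin (nb (n / 2) (b + 1)), (2 * Fintype.card (EE (b + 1)) + 2)) ?_)
        (Finset.sum_le_sum_of_subset (subset_univ _))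
      intro b hb
      have hb' : 0 < nb (n / 2) (b + 1) := (mem_filter.1 hb).2
      rw [sum_const, sum_const, card_univ, Fintype.card_fin, smul_eq_mul, smul_eq_mul]
      nlinarith
    have h6 : ∑ p : BB (n / 2), (2 * Fintype.card (EE (p.1 + 1)) + 2) ≤
        ∑ p : BB (n / 2), 3 * Fintype.card (EE (p.1 + 1)) := by
      refine Finset.sum_le_sum fun p _ => ?_
      have := card_EE_ge (p.1 + 1)
      omega
    rw [← Finset.mul_sum] at h4 h6
    -- if there is a block there is room for the last gate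
    rcases isEmpty_or_nonempty (BB (n / 2)) with hE | hE
    · have h7 : ∑ p : BB (n / 2), (2 * Fintype.card (EE (p.1 + 1)) + 1) = 0 := by simp
      have h8 : ∑ p : BB (n / 2), (2 * Fintype.card (EE (p.1 + 1)) + 2) = 0 := by simp
      omega
    · obtain ⟨p⟩ := hE
      have h7 : ∑ p : BB (n / 2), (2 * Fintype.card (EE (p.1 + 1)) + 1) + 1 ≤
          ∑ p : BB (n / 2), (2 * Fintype.card (EE (p.1 + 1)) + 2) := by
        have : ∑ p : BB (n / 2), (2 * Fintype.card (EE (p.1 + 1)) + 1) <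
            ∑ p : BB (n / 2), (2 * Fintype.card (EE (p.1 + 1)) + 2) :=
          Finset.sum_lt_sum (fun q _ => by omega) ⟨p, mem_univ _, by omega⟩
        omega
      omega
  · rw [Circuit.setOut_eval, hv, Bool.eq_iff_iff, fn2_iff, Bool.or_eq_true, f1s, f3s]
    simp only [f2s, mem_univ, true_and, forall_const]

section

variable {n b' : ℕ}

lemma blk2_read (c : Bool) (hbn : b' < n / 2)
    (w : Fin (nb (n / 2) (b' + 1)) → EE (b' + 1) → Bool) (γ : Fin (nb (n / 2) (b' + 1))) :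
    (fun e : EE (b' + 1) => asm (fun β e => em2 n (c, ⟨⟨⟨b', hbn⟩, β⟩, e⟩)) w
      (em2 n (c, ⟨⟨⟨b', hbn⟩, γ⟩, e⟩))) = w γ := by
  funext e
  rw [Bool.eq_iff_iff]
  simp only [asm, decide_eq_true_eq]
  constructor
  · rintro ⟨β, e', h1, h2⟩
    have h3 := (em2 n).injective h1
    simp only [Prod.mk.injEq, Sigma.mk.injEq, true_and] at h3
    obtain ⟨h4, h5⟩ := h3
    have h4' : β = γ := by
      simp only [Sigma.mk.injEq, heq_eq_eq, true_and] at h4
      exact h4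
    subst h4'
    have h5' : e' = e := by simpa using h5
    rwa [← h5']
  · intro h1
    exact ⟨γ, e, rfl, h1⟩

lemma blk2_other (c c' : Bool) (hbn : b' < n / 2)
    (w : Fin (nb (n / 2) (b' + 1)) → EE (b' + 1) → Bool) (q : BB (n / 2))
    (hq : c' ≠ c ∨ q.1.1 ≠ b') :
    blk2 n c' q (asm (fun β e => em2 n (c, ⟨⟨⟨b', hbn⟩, β⟩, e⟩)) w) = false := by
  have e1 : (fun e : EE (q.1 + 1) => asm (fun β e => em2 n (c, ⟨⟨⟨b', hbn⟩, β⟩, e⟩)) w
      (em2 n (c', ⟨q, e⟩))) = fun _ => false := by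
    funext e
    simp only [asm, decide_eq_false_iff_not]
    rintro ⟨β, e', h1, h2⟩
    have h3 := (em2 n).injective h1
    rcases hq with hq | hq
    · exact hq (congrArg (fun q : Bool × VV (n / 2) => q.1) h3).symm
    · exact hq (congrArg (fun q : Bool × VV (n / 2) => q.2.1.1.1) h3).symm
  have h : blk2 n c' q (asm (fun β e => em2 n (c, ⟨⟨⟨b', hbn⟩, β⟩, e⟩)) w) =
      reach (fun e : EE (q.1 + 1) => asm (fun β e => em2 n (c, ⟨⟨⟨b', hbn⟩, β⟩, e⟩)) w
      (em2 n (c', ⟨q, e⟩))) (s0 _) (LL (q.1 + 1)) (s1 _) := rfl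
  rw [h, e1]
  exact reach_false (b := q.1.1 + 1) (s0 _) (s1 _)

lemma blk2_same (c : Bool) (hbn : b' < n / 2)
    (w : Fin (nb (n / 2) (b' + 1)) → EE (b' + 1) → Bool) (γ : Fin (nb (n / 2) (b' + 1))) :
    blk2 n c ⟨⟨b', hbn⟩, γ⟩ (asm (fun β e => em2 n (c, ⟨⟨⟨b', hbn⟩, β⟩, e⟩)) w) =
      reach (w γ) (s0 _) (LL (b' + 1)) (s1 _) := by
  have h : blk2 n c ⟨⟨b', hbn⟩, γ⟩ (asm (fun β e => em2 n (c, ⟨⟨⟨b', hbn⟩, β⟩, e⟩)) w) =
      reach (fun e : EE (b' + 1) => asm (fun β e => em2 n (c, ⟨⟨⟨b', hbn⟩, β⟩, e⟩)) w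
      (em2 n (c, ⟨⟨⟨b', hbn⟩, γ⟩, e⟩))) (s0 _) (LL (b' + 1)) (s1 _) := rfl
  rw [h, blk2_read]

lemma fn2_or (hbn : b' < n / 2) (w : Fin (nb (n / 2) (b' + 1)) → EE (b' + 1) → Bool) :
    fn2 n (asm (fun β e => em2 n (false, ⟨⟨⟨b', hbn⟩, β⟩, e⟩)) w) = true ↔
      ∃ γ, reach (w γ) (s0 _) (LL (b' + 1)) (s1 _) = true := by
  rw [fn2_iff]
  constructor
  · rintro (⟨⟨⟨c, hc⟩, γ⟩, h⟩ | ⟨b, hb, h⟩)
    · by_cases hcb : c = b'
      · subst hcb
        rw [blk2_same] at h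
        exact ⟨γ, h⟩
      · rw [blk2_other false false hbn w ⟨⟨c, hc⟩, γ⟩ (Or.inr hcb)] at h
        exact absurd h (by simp)
    · have hb' : 0 < nb (n / 2) (b + 1) := (mem_filter.1 hb).2
      have h2 := h ⟨0, hb'⟩
      rw [blk2_other false true hbn w ⟨b, ⟨0, hb'⟩⟩ (Or.inl (by simp))] at h2
      exact absurd h2 (by simp)
  · rintro ⟨γ, h⟩
    left
    refine ⟨⟨⟨b', hbn⟩, γ⟩, ?_⟩
    rw [blk2_same]
    exact h

lemma fn2_and (hbn : b' < n / 2) (hnb : 0 < nb (n / 2) (b' + 1))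
    (w : Fin (nb (n / 2) (b' + 1)) → EE (b' + 1) → Bool) :
    fn2 n (asm (fun β e => em2 n (true, ⟨⟨⟨b', hbn⟩, β⟩, e⟩)) w) = true ↔
      ∀ γ, reach (w γ) (s0 _) (LL (b' + 1)) (s1 _) = true := by
  rw [fn2_iff]
  constructor
  · rintro (⟨q, h⟩ | ⟨⟨b, hb1⟩, hb, h⟩)
    · rw [blk2_other true false hbn w q (Or.inl (by simp))] at h
      exact absurd h (by simp)
    · have hb' : 0 < nb (n / 2) (b + 1) := (mem_filter.1 hb).2
      by_cases hcb : b = b'
      · subst hcb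
        intro γ
        have h2 := h γ
        rwa [blk2_same] at h2
      · have h2 := h ⟨0, hb'⟩
        rw [blk2_other true true hbn w ⟨⟨b, hb1⟩, ⟨0, hb'⟩⟩ (Or.inr hcb)] at h2
        exact absurd h2 (by simp)
  · intro h
    right
    refine ⟨⟨b', hbn⟩, mem_filter.2 ⟨mem_univ _, hnb⟩, ?_⟩
    intro γ
    rw [blk2_same]
    exact h γ

end

/-- The theorem for the function `fn2 n`. -/
theorem fn2_many {n b d : ℕ} (hb : 1 ≤ b) (hd : d ≤ b * (b - 1)) {U : Type} [Fintype U]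
    [Nonempty U] (D : U → (Fin n → Bool) → Bool) (hD : ∀ u, MF d (D u))
    (hE : (∀ x, fn2 n x = true ↔ ∃ u, D u x = true) ∨
      (∀ x, fn2 n x = true ↔ ∀ u, D u x = true)) :
    2 ^ ((b + 1) * (n / 2 ^ (8 * b + 10))) ≤ Fintype.card U := by
  have hdiv : n / 2 ^ (8 * b + 10) = nb (n / 2) b := by
    unfold nb
    rw [Nat.div_div_eq_div_mul]
    congr 1
    rw [← pow_succ']
  rw [hdiv]
  rcases Nat.eq_zero_or_pos (nb (n / 2) b) with h0 | hpos
  · rw [h0, mul_zero, pow_zero]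
    exact Fintype.card_pos
  have hbn : b - 1 < n / 2 := by
    have h1 : 2 ^ (8 * b + 9) ≤ n / 2 := by
      by_contra hcon
      unfold nb at hpos
      rw [Nat.div_eq_of_lt (not_le.1 hcon)] at hpos
      exact absurd hpos (lt_irrefl _)
    have h2 : 8 * b + 9 < 2 ^ (8 * b + 9) := Nat.lt_two_pow_self
    omega
  obtain ⟨b', rfl⟩ : ∃ b', b = b' + 1 := ⟨b - 1, by omega⟩
  rw [Nat.add_sub_cancel] at hbn
  have hcard : Fintype.card (AA (b' + 1)) = 2 ^ (3 * (b' + 1) + 4) := by simp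
  have hw : 2 ^ (b' + 1) * 2 ^ (2 * (b' + 1) + 4) ≤ Fintype.card (AA (b' + 1)) := by
    rw [hcard, ← pow_add]
    exact Nat.pow_le_pow_right (by norm_num) (by omega)
  have hinj : ∀ c : Bool, ∀ β e β' e', (fun (β : Fin (nb (n / 2) (b' + 1))) (e : EE (b' + 1)) =>
      em2 n (c, ⟨⟨⟨b', hbn⟩, β⟩, e⟩)) β e = (fun β e => em2 n (c, ⟨⟨⟨b', hbn⟩, β⟩, e⟩)) β' e' →
      β = β' ∧ e = e' := by
    intro c β e β' e' h
    have h1 := (em2 n).injective h
    simp only [Prod.mk.injEq, Sigma.mk.injEq, true_and] at h1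
    obtain ⟨h2, h3⟩ := h1
    have h2' : β = β' := by
      simp only [Sigma.mk.injEq, heq_eq_eq, true_and] at h2
      exact h2
    subst h2'
    exact ⟨rfl, by simpa using h3⟩
  have hne : s1 (b' + 1) ≠ s0 (b' + 1) := by simp [s0, s1]
  rcases hE with hE | hE
  · refine disj_many (A := AA (b' + 1)) (M := nb (n / 2) (b' + 1)) (L := LL (b' + 1))
      (k := b' + 1) hb hw hd rfl (s0 _) (s1 _) hne
      (fun β e => em2 n (true, ⟨⟨⟨b', hbn⟩, β⟩, e⟩)) (hinj true) D hD ?_ ?_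
    · intro w hw'
      refine (hE _).1 ((fn2_and hbn hpos w).2 fun γ => ?_)
      obtain ⟨x, hx⟩ := hw' γ
      rw [hx]
      exact reach_pth _ _ _
    · intro w β x hx u
      rw [Bool.eq_false_iff]
      intro hu
      have h1 := (fn2_and hbn hpos w).1 ((hE _).2 ⟨u, hu⟩) β
      rw [hx, reach_cut _ _ _ hne] at h1
      exact absurd h1 (by simp)
  · refine conj_many (A := AA (b' + 1)) (M := nb (n / 2) (b' + 1)) (L := LL (b' + 1))
      (k := b' + 1) hb hw hd rfl (s0 _) (s1 _) hne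
      (fun β e => em2 n (false, ⟨⟨⟨b', hbn⟩, β⟩, e⟩)) (hinj false) D hD ?_ ?_
    · intro w hw'
      by_contra hcon
      push Not at hcon
      obtain ⟨γ, h1⟩ := (fn2_or hbn w).1 ((hE _).2 fun u => by simpa using hcon u)
      obtain ⟨x, hx⟩ := hw' γ
      rw [hx, reach_cut _ _ _ hne] at h1
      exact absurd h1 (by simp)
    · intro w β x hx
      refine (hE _).1 ((fn2_or hbn w).2 ⟨β, ?_⟩)
      rw [hx]
      exact reach_pth _ _ _

end Pool.Agent.T9h97.Fork
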