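import Mathlib
import Pool.Agent.H540R2.Circ
import Pool.Agent.H540R2.Lift.Defs
import Pool.Agent.H540R2.Lift.NegDefs

/-!
# The level of a NOT gate
-/

set_option autoImplicit false

namespace Pool.Agent.T9h97.Fork

open Pool.Agent.H540R2

variable {n : ℕ}

/-- The inversion depth of a gate, given the inversion depths `v` of the gates before it. -/
def gateInv (v : ℕ → ℕ) : Gate n → ℕ
  | .and a b => max (a.depth v) (b.depth v)
  | .or a b => max (a.depth v) (b.depth v)
  | .not a => a.depth v + 1

/-- The inversion depth of gate number `i`: the largest number of NOT gates on a directed path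
that ends in gate `i` (gate `i` included). -/
def lev (C : Circuit n) : ℕ → ℕ
  | i => gateInv (fun j => if _h : j < i then lev C j else 0) (C.gate i)
termination_by i => i

/-- The number of NOT gates of inversion depth `j`. -/
def notsAt (C : Circuit n) (j : ℕ) : ℕ :=
  ((Finset.range C.size).filter (fun i => (C.gate i).isNot = true ∧ lev C i = j)).card

end Pool.Agent.T9h97.Fork
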