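import Pool.Agent.T9h97.Fork.MFl
import Pool.Agent.T9h97.Fork.Neg
import Pool.Agent.H540R2.Build

/-!
# Circuits with frozen NOT gates
-/

set_option autoImplicit false

namespace Pool.Agent.T9h97.Fork

open Finset Pool.Agent.H540R2
open scoped Classical

/-- the mixed radix number with the digits `c 0, c 1, ..., c (r - 1)` -/
def rk (t c : ℕ → ℕ) : ℕ → ℕ
  | 0 => 0
  | r + 1 => rk t c r * (t r + 1) + c r

lemma rk_lt {t c : ℕ → ℕ} (h : ∀ j, c j ≤ t j) : ∀ r, rk t c r < ∏ j ∈ range r, (t j + 1) := by
  intro r
  induction r with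
  | zero => simp [rk]
  | succ r ih =>
    rw [prod_range_succ, rk]
    have := h r
    have h1 : rk t c r * (t r + 1) + (t r + 1) ≤ (∏ j ∈ range r, (t j + 1)) * (t r + 1) := by
      rw [← Nat.succ_mul]
      exact Nat.mul_le_mul_right _ ih
    omega

lemma rk_congr {t c c' : ℕ → ℕ} {j : ℕ} (heq : ∀ i < j, c i = c' i) : rk t c j = rk t c' j := by
  induction j with
  | zero => rfl
  | succ j ih =>
    rw [rk, rk, ih fun i hi => heq i (by omega), heq j (by omega)]

lemma rk_lt_rk {t c c' : ℕ → ℕ} (hc : ∀ j, c j ≤ t j) {j : ℕ} (heq : ∀ i < j, c i = c' i)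
    (hj : c j < c' j) : ∀ r, j < r → rk t c r < rk t c' r := by
  intro r
  induction r with
  | zero => intro h; omega
  | succ r ih =>
    intro hr
    rw [rk, rk]
    rcases Nat.lt_succ_iff_lt_or_eq.1 hr with h | h
    · have h1 := ih h
      have h2 : rk t c r * (t r + 1) + (t r + 1) ≤ rk t c' r * (t r + 1) := by
        rw [← Nat.succ_mul]
        exact Nat.mul_le_mul_right _ h1
      have := hc r
      omega
    · subst h
      rw [rk_congr heq]
      omega

/-- Replacing blocks one after another: if each replacement of a zero block can increase the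
rank, then the rank reaches the number of blocks. -/
lemma hybrid {X Y : Type} {M : ℕ} (asm : (Fin M → Y) → X) (zero : Y) (N : Y → Prop) (Φ : X → ℕ)
    (step : ∀ (w : Fin M → Y) (β : Fin M), (∀ γ, N (w γ) ∨ w γ = zero) → w β = zero →
      ∃ z, N z ∧ Φ (asm w) < Φ (asm (Function.update w β z))) :
    ∃ w, (∀ γ, N (w γ) ∨ w γ = zero) ∧ M ≤ Φ (asm w) := by
  have key : ∀ i ≤ M, ∃ w : Fin M → Y, (∀ γ, N (w γ) ∨ w γ = zero) ∧
      (∀ γ : Fin M, i ≤ γ.1 → w γ = zero) ∧ i ≤ Φ (asm w) := by
    intro i
    induction i with
    | zero => exact fun _ => ⟨fun _ => zero, fun _ => Or.inr rfl, fun _ _ => rfl, Nat.zero_le _⟩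
    | succ i ih =>
      intro hi
      obtain ⟨w, h1, h2, h3⟩ := ih (by omega)
      obtain ⟨z, hz, hΦ⟩ := step w ⟨i, by omega⟩ h1 (h2 _ le_rfl)
      refine ⟨Function.update w ⟨i, by omega⟩ z, ?_, ?_, by omega⟩
      · intro γ
        by_cases hγ : γ = ⟨i, by omega⟩
        · subst hγ
          rw [Function.update_self]
          exact Or.inl hz
        · rw [Function.update_of_ne hγ]
          exact h1 γ
      · intro γ hγ
        rw [Function.update_of_ne]
        · exact h2 γ (by omega)
        · intro h
          rw [h] at hγ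
          simp at hγ
  obtain ⟨w, h1, _, h3⟩ := key M le_rfl
  exact ⟨w, h1, h3⟩

variable {n : ℕ}

lemma lev_gate (D : Circuit n) {i : ℕ} (hi : i < D.size) :
    lev D i = gateInv (lev D) (D.gate i) := by
  rw [lev]
  have key : ∀ a : Node n, (∀ j, a.wires j ≠ 0 → j < i) →
      a.depth (fun j => if _h : j < i then lev D j else 0) = a.depth (lev D) := by
    intro a ha
    apply Node.depth_congr
    intro j hj
    simp [ha j hj]
  have hw := D.gate_lt i hi
  cases hg : D.gate i with
  | and a b =>
    rw [hg] at hw
    simp only [gateInv]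
    rw [key a (fun j hj => hw j (by simp only [Gate.wires]; omega)),
      key b (fun j hj => hw j (by simp only [Gate.wires]; omega))]
  | or a b =>
    rw [hg] at hw
    simp only [gateInv]
    rw [key a (fun j hj => hw j (by simp only [Gate.wires]; omega)),
      key b (fun j hj => hw j (by simp only [Gate.wires]; omega))]
  | not a =>
    rw [hg] at hw
    simp only [gateInv]
    rw [key a (fun j hj => hw j (by simp only [Gate.wires]; omega))]

/-- the values of the gates if the values of the NOT gates are replaced by `ν` -/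
def fz (D : Circuit n) (ν : ℕ → Bool) (x : Fin n → Bool) : ℕ → Bool
  | i => if (D.gate i).isNot = true then ν i else
      (D.gate i).eval x (fun j => if _h : j < i then fz D ν x j else false)
termination_by i => i

lemma fz_not (D : Circuit n) (ν : ℕ → Bool) (x : Fin n → Bool) {i : ℕ}
    (h : (D.gate i).isNot = true) : fz D ν x i = ν i := by
  rw [fz, if_pos h]

lemma fz_gate (D : Circuit n) (ν : ℕ → Bool) (x : Fin n → Bool) {i : ℕ} (hi : i < D.size)
    (h : ¬ (D.gate i).isNot = true) : fz D ν x i = (D.gate i).eval x (fz D ν x) := by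
  rw [fz, if_neg h]
  apply Gate.eval_congr
  intro j hj
  simp [D.gate_lt i hi j hj]

lemma node_MF {D : Circuit n} {ν : ℕ → Bool} {a : Node n}
    (h : ∀ j, a.wires j ≠ 0 → MF (D.gateDepth j) (fun x => fz D ν x j)) :
    MF (a.depth D.gateDepth) (fun x => a.eval x (fz D ν x)) := by
  cases a with
  | var i => exact MF.var _ i
  | const b => exact MF.const _ b
  | gate j => exact h j (by simp [Node.wires])

lemma fz_MF (D : Circuit n) (ν : ℕ → Bool) : ∀ i < D.size,
    MF (D.gateDepth i) (fun x => fz D ν x i) := by
  intro i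
  induction i using Nat.strong_induction_on with
  | _ i ih =>
    intro hi
    have hw := D.gate_lt i hi
    have hd := D.gateDepth_gate hi
    cases hg : D.gate i with
    | and a b =>
      rw [hg] at hw hd
      have e : (fun x => fz D ν x i) = fun x => a.eval x (fz D ν x) && b.eval x (fz D ν x) := by
        funext x
        rw [fz_gate D ν x hi (by rw [hg]; simp [Gate.isNot]), hg]
        rfl
      have ha : ∀ j, a.wires j ≠ 0 → j < i := fun j hj => hw j (by simp only [Gate.wires]; omega)
      have hb : ∀ j, b.wires j ≠ 0 → j < i := fun j hj => hw j (by simp only [Gate.wires]; omega)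
      rw [e, hd]
      exact MF.and
        ((node_MF fun j hj => ih j (ha j hj) ((ha j hj).trans hi)).mono (le_max_left _ _))
        ((node_MF fun j hj => ih j (hb j hj) ((hb j hj).trans hi)).mono (le_max_right _ _))
    | or a b =>
      rw [hg] at hw hd
      have e : (fun x => fz D ν x i) = fun x => a.eval x (fz D ν x) || b.eval x (fz D ν x) := by
        funext x
        rw [fz_gate D ν x hi (by rw [hg]; simp [Gate.isNot]), hg]
        rfl
      have ha : ∀ j, a.wires j ≠ 0 → j < i := fun j hj => hw j (by simp only [Gate.wires]; omega)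
      have hb : ∀ j, b.wires j ≠ 0 → j < i := fun j hj => hw j (by simp only [Gate.wires]; omega)
      rw [e, hd]
      exact MF.or
        ((node_MF fun j hj => ih j (ha j hj) ((ha j hj).trans hi)).mono (le_max_left _ _))
        ((node_MF fun j hj => ih j (hb j hj) ((hb j hj).trans hi)).mono (le_max_right _ _))
    | not a =>
      have e : (fun x => fz D ν x i) = fun _ => ν i := by
        funext x
        rw [fz_not D ν x (by rw [hg]; simp [Gate.isNot])]
      rw [e]
      exact MF.const _ _

lemma node_fz_MF (D : Circuit n) (ν : ℕ → Bool) {a : Node n}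
    (ha : ∀ j, a.wires j ≠ 0 → j < D.size) :
    MF (a.depth D.gateDepth) (fun x => a.eval x (fz D ν x)) :=
  node_MF fun j hj => fz_MF D ν j (ha j hj)

/-- `ν` is right for the NOT gates of gate depth at most `p` and level at most `q` -/
def Rt (D : Circuit n) (ν : ℕ → Bool) (x : Fin n → Bool) (p q : ℕ) : Prop :=
  ∀ j < D.size, (D.gate j).isNot = true → D.gateDepth j ≤ p → lev D j ≤ q → ν j = D.val x j

lemma Rt.mono {D : Circuit n} {ν : ℕ → Bool} {x : Fin n → Bool} {p q p' q' : ℕ}
    (h : Rt D ν x p q) (hp : p' ≤ p) (hq : q' ≤ q) : Rt D ν x p' q' :=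
  fun j hj hn h1 h2 => h j hj hn (h1.trans hp) (h2.trans hq)

lemma node_fz {D : Circuit n} {ν : ℕ → Bool} {x : Fin n → Bool} {a : Node n}
    (h : ∀ j, a.wires j ≠ 0 → Rt D ν x (D.gateDepth j) (lev D j) → fz D ν x j = D.val x j)
    (hr : Rt D ν x (a.depth D.gateDepth) (a.depth (lev D))) :
    a.eval x (fz D ν x) = a.eval x (D.val x) := by
  cases a with
  | var i => rfl
  | const b => rfl
  | gate j => exact h j (by simp [Node.wires]) hr

lemma fz_eq (D : Circuit n) (ν : ℕ → Bool) (x : Fin n → Bool) : ∀ i < D.size,
    Rt D ν x (D.gateDepth i) (lev D i) → fz D ν x i = D.val x i := by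
  intro i
  induction i using Nat.strong_induction_on with
  | _ i ih =>
    intro hi hr
    by_cases hn : (D.gate i).isNot = true
    · rw [fz_not D ν x hn]
      exact hr i hi hn le_rfl le_rfl
    · rw [fz_gate D ν x hi hn, D.val_gate hi]
      have hw := D.gate_lt i hi
      have hd := D.gateDepth_gate hi
      have hl := lev_gate D hi
      cases hg : D.gate i with
      | and a b =>
        rw [hg] at hw hd hl
        have ha : ∀ j, a.wires j ≠ 0 → j < i := fun j hj => hw j (by simp only [Gate.wires]; omega)
        have hb : ∀ j, b.wires j ≠ 0 → j < i := fun j hj => hw j (by simp only [Gate.wires]; omega)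
        simp only [Gate.depth, gateInv] at hd hl
        simp only [Gate.eval]
        rw [node_fz (fun j hj => ih j (ha j hj) ((ha j hj).trans hi))
            (hr.mono (by omega) (by omega)),
          node_fz (fun j hj => ih j (hb j hj) ((hb j hj).trans hi))
            (hr.mono (by omega) (by omega))]
      | or a b =>
        rw [hg] at hw hd hl
        have ha : ∀ j, a.wires j ≠ 0 → j < i := fun j hj => hw j (by simp only [Gate.wires]; omega)
        have hb : ∀ j, b.wires j ≠ 0 → j < i := fun j hj => hw j (by simp only [Gate.wires]; omega)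
        simp only [Gate.depth, gateInv] at hd hl
        simp only [Gate.eval]
        rw [node_fz (fun j hj => ih j (ha j hj) ((ha j hj).trans hi))
            (hr.mono (by omega) (by omega)),
          node_fz (fun j hj => ih j (hb j hj) ((hb j hj).trans hi))
            (hr.mono (by omega) (by omega))]
      | not a =>
        rw [hg] at hn
        exact absurd rfl hn

lemma node_fz_eq {D : Circuit n} {ν : ℕ → Bool} {x : Fin n → Bool} {a : Node n}
    (ha : ∀ j, a.wires j ≠ 0 → j < D.size)
    (hr : Rt D ν x (a.depth D.gateDepth) (a.depth (lev D))) :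
    a.eval x (fz D ν x) = a.eval x (D.val x) :=
  node_fz (fun j hj => fz_eq D ν x j (ha j hj)) hr

/-- the input of a NOT gate -/
lemma not_input {D : Circuit n} {i : ℕ} (hi : i < D.size) (hn : (D.gate i).isNot = true) :
    ∃ a : Node n, D.gate i = .not a ∧ (∀ j, a.wires j ≠ 0 → j < D.size) ∧
      D.gateDepth i = a.depth D.gateDepth + 1 ∧ lev D i = a.depth (lev D) + 1 ∧
      ∀ x, D.val x i = !(a.eval x (D.val x)) := by
  have hw := D.gate_lt i hi
  have hd := D.gateDepth_gate hi
  have hl := lev_gate D hi
  have hv := fun x => D.val_gate hi x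
  cases hg : D.gate i with
  | and a b => rw [hg] at hn; exact absurd hn (by simp [Gate.isNot])
  | or a b => rw [hg] at hn; exact absurd hn (by simp [Gate.isNot])
  | not a =>
    simp only [hg] at hw hd hl hv
    exact ⟨a, rfl, fun j hj => (hw j hj).trans hi, hd, hl, hv⟩

/-- the relevant NOT gates of a circuit of depth `d` -/
def Rel (D : Circuit n) (d : ℕ) : Finset ℕ :=
  (range D.size).filter fun i => (D.gate i).isNot = true ∧ D.gateDepth i ≤ d

lemma mem_Rel {D : Circuit n} {d i : ℕ} :
    i ∈ Rel D d ↔ i < D.size ∧ (D.gate i).isNot = true ∧ D.gateDepth i ≤ d := by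
  simp [Rel]

/-- The first NOT gate that changes its value changes it from true to false. -/
lemma first_change {D : Circuit n} {d i : ℕ} {x y : Fin n → Bool}
    (hxy : ∀ v, x v = true → y v = true) (hi : i ∈ Rel D d)
    (hl : ∀ j ∈ Rel D d, lev D j < lev D i → D.val x j = D.val y j) :
    D.val x i = false → D.val y i = false := by
  obtain ⟨h1, h2, h3⟩ := mem_Rel.1 hi
  obtain ⟨a, -, ha, h5, h6, h7⟩ := not_input h1 h2
  rw [h7, h7]
  intro h
  have hx : a.eval x (fz D (D.val x) x) = a.eval x (D.val x) :=
    node_fz_eq ha fun j _ _ _ _ => rfl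
  have hy : a.eval y (fz D (D.val x) y) = a.eval y (D.val y) := by
    refine node_fz_eq ha fun j hj hn hd hl' => hl j (mem_Rel.2 ⟨hj, hn, ?_⟩) ?_
    · omega
    · omega
  simp only [Bool.not_eq_eq_eq_not, Bool.not_false] at h ⊢
  rw [← hy]
  exact (node_fz_MF D (D.val x) ha).le hxy (by rw [hx]; exact h)

/-- the number of relevant NOT gates of level `j` with value false -/
def cnt (D : Circuit n) (d : ℕ) (x : Fin n → Bool) (j : ℕ) : ℕ :=
  ((Rel D d).filter fun i => lev D i = j ∧ D.val x i = false).card

lemma cnt_le (D : Circuit n) (d : ℕ) (x : Fin n → Bool) (j : ℕ) : cnt D d x j ≤ notsAt D j := by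
  apply card_le_card
  intro i hi
  rw [mem_filter, mem_Rel] at hi
  rw [mem_filter, mem_range]
  exact ⟨hi.1.1, hi.1.2.1, hi.2.1⟩

/-- the rank of an input -/
def rank (D : Circuit n) (d : ℕ) (x : Fin n → Bool) : ℕ :=
  rk (notsAt D) (cnt D d x) (D.size + 1)

lemma rank_lt (D : Circuit n) (d : ℕ) (x : Fin n → Bool) :
    rank D d x < ∏ j ∈ range (D.size + 1), (notsAt D j + 1) :=
  rk_lt (cnt_le D d x) _

lemma lev_le (D : Circuit n) : ∀ i < D.size, lev D i ≤ i + 1 := by
  intro i
  induction i using Nat.strong_induction_on with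
  | _ i ih =>
    intro hi
    have key : ∀ a : Node n, (∀ j, a.wires j ≠ 0 → j < i) → a.depth (lev D) ≤ i := by
      intro a ha
      cases a with
      | var _ => exact Nat.zero_le _
      | const _ => exact Nat.zero_le _
      | gate j =>
        have h1 : j < i := ha j (by simp [Node.wires])
        exact (ih j h1 (h1.trans hi)).trans h1
    have hw := D.gate_lt i hi
    rw [lev_gate D hi]
    cases hg : D.gate i with
    | and a b =>
      rw [hg] at hw
      have h1 := key a (fun j hj => hw j (by simp only [Gate.wires]; omega))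
      have h2 := key b (fun j hj => hw j (by simp only [Gate.wires]; omega))
      simp only [gateInv]
      omega
    | or a b =>
      rw [hg] at hw
      have h1 := key a (fun j hj => hw j (by simp only [Gate.wires]; omega))
      have h2 := key b (fun j hj => hw j (by simp only [Gate.wires]; omega))
      simp only [gateInv]
      omega
    | not a =>
      rw [hg] at hw
      have h1 := key a (fun j hj => hw j (by simp only [Gate.wires]; omega))
      simp only [gateInv]
      omega

/-- If the input grows and some relevant NOT gate changes its value, then the rank grows. -/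
lemma rank_lt_rank {D : Circuit n} {d : ℕ} {x y : Fin n → Bool}
    (hxy : ∀ v, x v = true → y v = true) (h : ∃ i ∈ Rel D d, D.val x i ≠ D.val y i) :
    rank D d x < rank D d y := by
  obtain ⟨i, hi, hmin⟩ := Finset.exists_min_image ((Rel D d).filter fun i =>
    D.val x i ≠ D.val y i) (lev D) (by
      obtain ⟨i, hi, h'⟩ := h
      exact ⟨i, mem_filter.2 ⟨hi, h'⟩⟩)
  rw [mem_filter] at hi
  have hag : ∀ j ∈ Rel D d, lev D j < lev D i → D.val x j = D.val y j := by
    intro j hj hlt
    by_contra hne
    exact absurd (hmin j (mem_filter.2 ⟨hj, hne⟩)) (not_le.2 hlt)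
  have hiR := mem_Rel.1 hi.1
  refine rk_lt_rk (cnt_le D d x) (j := lev D i) ?_ ?_ _ ?_
  · intro l hl
    unfold cnt
    congr 1
    apply filter_congr
    intro j hj
    constructor
    · rintro ⟨h1, h2⟩
      exact ⟨h1, by rw [← hag j hj (by omega)]; exact h2⟩
    · rintro ⟨h1, h2⟩
      exact ⟨h1, by rw [hag j hj (by omega)]; exact h2⟩
  · apply card_lt_card
    rw [ssubset_iff_of_subset]
    · refine ⟨i, ?_, ?_⟩
      · rw [mem_filter]
        refine ⟨hi.1, rfl, ?_⟩
        cases hy : D.val y i with
        | false => rfl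
        | true =>
          have h3 := first_change hxy hi.1 hag
          cases hx : D.val x i with
          | false => rw [h3 hx] at hy; exact absurd hy (by simp)
          | true => exact absurd (hx.trans hy.symm) hi.2
      · rw [mem_filter]
        rintro ⟨_, _, h4⟩
        exact hi.2 (h4.trans (first_change hxy hi.1 hag h4).symm)
    · intro j hj
      rw [mem_filter] at hj ⊢
      refine ⟨hj.1, hj.2.1, ?_⟩
      refine first_change hxy hj.1 (fun l hl hlt => hag l hl ?_) hj.2.2
      rw [← hj.2.1]
      exact hlt
  · have := lev_le D i hiR.1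
    omega

end Pool.Agent.T9h97.Fork
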