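import Pool.Agent.T9h97.Fork.Core

/-!
# Small monotone circuits
-/

set_option autoImplicit false

namespace Pool.Agent.T9h97.Fork

open Finset Pool.Agent.H540R2
open scoped Classical

variable {n : ℕ}

/-- the circuit has a node that computes `f` -/
def Has (P : Circuit n) (f : (Fin n → Bool) → Bool) : Prop :=
  ∃ a : Node n, (∀ j, a.wires j ≠ 0 → j < P.size) ∧ ∀ x, a.eval x (P.val x) = f x

lemma Has.ext {P P' : Circuit n} {f : (Fin n → Bool) → Bool} (h : Has P f)
    (he : Circuit.Ext P P') : Has P' f := by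
  obtain ⟨a, ha, hv⟩ := h
  exact ⟨a, fun j hj => lt_of_lt_of_le (ha j hj) he.1, fun x => by rw [he.node_eval x ha, hv]⟩

lemma Has.var (P : Circuit n) (i : Fin n) : Has P (fun x => x i) :=
  ⟨.var i, fun j hj => absurd rfl hj, fun _ => rfl⟩

lemma Has.const (P : Circuit n) (b : Bool) : Has P (fun _ => b) :=
  ⟨.const b, fun j hj => absurd rfl hj, fun _ => rfl⟩

lemma add_monotone {P : Circuit n} (hP : P.Monotone) (g : Gate n)
    (hg : ∀ j, g.wires j ≠ 0 → j < P.size) (hn : ∀ a, g ≠ .not a) : (P.add g hg).Monotone := by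
  intro i hi a
  by_cases h : i = P.size
  · subst h
    have : (P.add g hg).gate P.size = g := Function.update_self _ _ _
    rw [this]
    exact hn a
  · have h1 : i < P.size := by
      have : i < P.size + 1 := hi
      omega
    rw [(P.add_ext g hg).2 i h1]
    exact hP i h1 a

lemma Has.and_gate {P : Circuit n} (hP : P.Monotone) {f g : (Fin n → Bool) → Bool}
    (hf : Has P f) (hg : Has P g) : ∃ P', Circuit.Ext P P' ∧ P'.Monotone ∧
      P'.size ≤ P.size + 1 ∧ Has P' (fun x => f x && g x) := by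
  obtain ⟨a, ha, hav⟩ := hf
  obtain ⟨b, hb, hbv⟩ := hg
  have hw : ∀ j, (Gate.and a b).wires j ≠ 0 → j < P.size := by
    intro j hj
    simp only [Gate.wires] at hj
    by_cases h : a.wires j = 0
    · exact hb j (by omega)
    · exact ha j h
  refine ⟨P.add (.and a b) hw, P.add_ext _ _, add_monotone hP _ _ (by simp), le_rfl, _,
    (P.add (.and a b) hw).out_lt, fun x => ?_⟩
  have := P.add_eval (.and a b) hw x
  rw [Circuit.eval] at this
  rw [this]
  simp only [Gate.eval]
  rw [hav, hbv]

lemma Has.or_gate {P : Circuit n} (hP : P.Monotone) {f g : (Fin n → Bool) → Bool}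
    (hf : Has P f) (hg : Has P g) : ∃ P', Circuit.Ext P P' ∧ P'.Monotone ∧
      P'.size ≤ P.size + 1 ∧ Has P' (fun x => f x || g x) := by
  obtain ⟨a, ha, hav⟩ := hf
  obtain ⟨b, hb, hbv⟩ := hg
  have hw : ∀ j, (Gate.or a b).wires j ≠ 0 → j < P.size := by
    intro j hj
    simp only [Gate.wires] at hj
    by_cases h : a.wires j = 0
    · exact hb j (by omega)
    · exact ha j h
  refine ⟨P.add (.or a b) hw, P.add_ext _ _, add_monotone hP _ _ (by simp), le_rfl, _,
    (P.add (.or a b) hw).out_lt, fun x => ?_⟩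
  have := P.add_eval (.or a b) hw x
  rw [Circuit.eval] at this
  rw [this]
  simp only [Gate.eval]
  rw [hav, hbv]

/-- with `c` more gates one gets from the functions `F` to the functions `G` -/
def Gen (c : ℕ) (F G : ((Fin n → Bool) → Bool) → Prop) : Prop :=
  ∀ P : Circuit n, P.Monotone → (∀ f, F f → Has P f) →
    ∃ P', Circuit.Ext P P' ∧ P'.Monotone ∧ P'.size ≤ P.size + c ∧ ∀ g, G g → Has P' g

lemma Gen.trans {c c' : ℕ} {F G H : ((Fin n → Bool) → Bool) → Prop} (h : Gen c F G)
    (h' : Gen c' (fun f => F f ∨ G f) H) : Gen (c + c') F H := by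
  intro P hP hF
  obtain ⟨P1, e1, m1, s1, g1⟩ := h P hP hF
  obtain ⟨P2, e2, m2, s2, g2⟩ := h' P1 m1 (by
    rintro f (h | h)
    · exact (hF f h).ext e1
    · exact g1 f h)
  exact ⟨P2, e1.trans e2, m2, by omega, g2⟩

lemma Gen.mono {c c' : ℕ} {F G F' G' : ((Fin n → Bool) → Bool) → Prop} (h : Gen c F G)
    (hc : c ≤ c') (hF : ∀ f, F f → F' f) (hG : ∀ f, G' f → G f) : Gen c' F' G' := by
  intro P hP hF'
  obtain ⟨P1, e1, m1, s1, g1⟩ := h P hP (fun f hf => hF' f (hF f hf))
  exact ⟨P1, e1, m1, by omega, fun g hg => g1 g (hG g hg)⟩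

lemma Gen.family {ι : Type} {c : ℕ} {F : ((Fin n → Bool) → Bool) → Prop}
    {G : ι → ((Fin n → Bool) → Bool) → Prop} (s : Finset ι) (h : ∀ i ∈ s, Gen c F (G i)) :
    Gen (c * s.card) F (fun g => ∃ i ∈ s, G i g) := by
  induction s using Finset.induction_on with
  | empty =>
    intro P hP _
    exact ⟨P, Circuit.Ext.refl P, hP, Nat.le_add_right _ _, by simp⟩
  | insert i s hi ih =>
    intro P hP hF
    obtain ⟨P1, e1, m1, s1, g1⟩ := ih (fun j hj => h j (mem_insert_of_mem hj)) P hP hF
    obtain ⟨P2, e2, m2, s2, g2⟩ := h i (mem_insert_self i s) P1 m1 (fun f hf => (hF f hf).ext e1)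
    refine ⟨P2, e1.trans e2, m2, ?_, ?_⟩
    · rw [card_insert_of_notMem hi, Nat.mul_succ]
      omega
    · rintro g ⟨j, hj, hg⟩
      rcases mem_insert.1 hj with rfl | hj
      · exact g2 g hg
      · exact (g1 g ⟨j, hj, hg⟩).ext e2

/-- a disjunction of conjunctions -/
lemma Gen.anyAnd {ι : Type} {F : ((Fin n → Bool) → Bool) → Prop} (s : Finset ι)
    (h k : ι → (Fin n → Bool) → Bool) (hh : ∀ i ∈ s, F (h i))
    (hk : ∀ i ∈ s, ∃ v : Fin n, k i = fun x => x v) :
    Gen (2 * s.card) F (fun g => g = fun x => decide (∃ i ∈ s, h i x = true ∧ k i x = true)) := by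
  induction s using Finset.induction_on with
  | empty =>
    intro P hP _
    refine ⟨P, Circuit.Ext.refl P, hP, Nat.le_add_right _ _, ?_⟩
    rintro g rfl
    have : (fun x : Fin n → Bool => decide (∃ i ∈ (∅ : Finset ι), h i x = true ∧ k i x = true)) =
        fun _ => false := by funext x; simp
    rw [this]
    exact Has.const P false
  | insert i s hi ih =>
    intro P hP hF
    obtain ⟨P1, e1, m1, s1, g1⟩ := ih (fun j hj => hh j (mem_insert_of_mem hj))
      (fun j hj => hk j (mem_insert_of_mem hj)) P hP hF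
    obtain ⟨v, hv⟩ := hk i (mem_insert_self i s)
    obtain ⟨P2, e2, m2, s2, g2⟩ := Has.and_gate m1
      ((hF _ (hh i (mem_insert_self i s))).ext e1) (Has.var P1 v)
    obtain ⟨P3, e3, m3, s3, g3⟩ := Has.or_gate m2 g2 ((g1 _ rfl).ext e2)
    refine ⟨P3, (e1.trans e2).trans e3, m3, ?_, ?_⟩
    · rw [card_insert_of_notMem hi]
      omega
    · rintro g rfl
      convert g3 using 1
      funext x
      rw [Bool.eq_iff_iff]
      simp only [decide_eq_true_eq, Bool.or_eq_true, Bool.and_eq_true, mem_insert]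
      constructor
      · rintro ⟨j, rfl | hj, h1, h2⟩
        · rw [hv] at h2
          exact Or.inl ⟨h1, h2⟩
        · exact Or.inr ⟨j, hj, h1, h2⟩
      · rintro (⟨h1, h2⟩ | ⟨j, hj, h1, h2⟩)
        · exact ⟨i, Or.inl rfl, h1, by rw [hv]; exact h2⟩
        · exact ⟨j, Or.inr hj, h1, h2⟩

/-- a disjunction of functions, each of which has a small circuit -/
lemma Gen.any {ι : Type} (s : Finset ι) (h : ι → (Fin n → Bool) → Bool) (c : ι → ℕ)
    (hh : ∀ i ∈ s, Gen (c i) (fun _ => False) (fun g => g = h i)) :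
    Gen (∑ i ∈ s, (c i + 1)) (fun _ => False)
      (fun g => g = fun x => decide (∃ i ∈ s, h i x = true)) := by
  induction s using Finset.induction_on with
  | empty =>
    intro P hP _
    refine ⟨P, Circuit.Ext.refl P, hP, Nat.le_add_right _ _, ?_⟩
    rintro g rfl
    have : (fun x : Fin n → Bool => decide (∃ i ∈ (∅ : Finset ι), h i x = true)) =
        fun _ => false := by funext x; simp
    rw [this]
    exact Has.const P false
  | insert i s hi ih =>
    intro P hP hF
    obtain ⟨P1, e1, m1, s1, g1⟩ := ih (fun j hj => hh j (mem_insert_of_mem hj)) P hP hF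
    obtain ⟨P2, e2, m2, s2, g2⟩ := hh i (mem_insert_self i s) P1 m1 (by simp)
    obtain ⟨P3, e3, m3, s3, g3⟩ := Has.or_gate m2 (g2 _ rfl) ((g1 _ rfl).ext e2)
    refine ⟨P3, (e1.trans e2).trans e3, m3, ?_, ?_⟩
    · rw [sum_insert hi]
      omega
    · rintro g rfl
      convert g3 using 1
      funext x
      rw [Bool.eq_iff_iff]
      simp only [decide_eq_true_eq, Bool.or_eq_true, mem_insert]
      constructor
      · rintro ⟨j, rfl | hj, h1⟩
        · exact Or.inl h1
        · exact Or.inr ⟨j, hj, h1⟩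
      · rintro (h1 | ⟨j, hj, h1⟩)
        · exact ⟨i, Or.inl rfl, h1⟩
        · exact ⟨j, Or.inr hj, h1⟩

/-! ### Connectivity in layered graphs -/

variable {A : Type} [Fintype A] {L : ℕ}

/-- there is a path from `(0, a0)` to `(i, v)` -/
noncomputable def reach (z : Fin L × A × A → Bool) (a0 : A) (i : ℕ) (v : A) : Bool :=
  decide (∃ X : ℕ → A, X 0 = a0 ∧ X i = v ∧
    ∀ j (h : j < L), j < i → z (⟨j, h⟩, X j, X (j + 1)) = true)

lemma reach_zero (z : Fin L × A × A → Bool) (a0 v : A) :
    reach z a0 0 v = decide (a0 = v) := by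
  unfold reach
  rw [Bool.eq_iff_iff]
  simp only [decide_eq_true_eq]
  constructor
  · rintro ⟨X, h1, h2, -⟩
    exact h1.symm.trans h2
  · rintro rfl
    exact ⟨fun _ => a0, rfl, rfl, fun j _ hj => absurd hj (Nat.not_lt_zero j)⟩

lemma reach_succ (z : Fin L × A × A → Bool) (a0 v : A) {i : ℕ} (hi : i < L) :
    reach z a0 (i + 1) v =
      decide (∃ u ∈ (univ : Finset A), reach z a0 i u = true ∧ z (⟨i, hi⟩, u, v) = true) := by
  rw [Bool.eq_iff_iff]
  simp only [reach, decide_eq_true_eq]
  constructor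
  · rintro ⟨X, h1, h2, h3⟩
    refine ⟨X i, mem_univ _, ⟨X, h1, rfl, fun j h hj => h3 j h (by omega)⟩, ?_⟩
    rw [← h2]
    exact h3 i hi (Nat.lt_succ_self i)
  · rintro ⟨u, -, ⟨X, h1, h2, h3⟩, h4⟩
    refine ⟨Function.update X (i + 1) v, ?_, Function.update_self _ _ _, ?_⟩
    · rw [Function.update_of_ne (by omega)]
      exact h1
    · intro j h hj
      rw [Function.update_of_ne (show j ≠ i + 1 by omega)]
      rcases Nat.lt_succ_iff_lt_or_eq.1 hj with h5 | h5
      · rw [Function.update_of_ne (show j + 1 ≠ i + 1 by omega)]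
        exact h3 j h h5
      · subst h5
        rw [Function.update_self, h2]
        exact h4

lemma gen_reach (e : Fin L × A × A → Fin n) (a0 : A) : ∀ i ≤ L,
    Gen (2 * Fintype.card A * Fintype.card A * i) (fun _ => False)
      (fun g => ∃ v : A, g = fun x => reach (fun p => x (e p)) a0 i v) := by
  intro i
  induction i with
  | zero =>
    intro _ P hP _
    refine ⟨P, Circuit.Ext.refl P, hP, Nat.le_add_right _ _, ?_⟩
    rintro g ⟨v, rfl⟩
    have : (fun x : Fin n → Bool => reach (fun p => x (e p)) a0 0 v) =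
        fun _ => decide (a0 = v) := by funext x; rw [reach_zero]
    rw [this]
    exact Has.const P _
  | succ i ih =>
    intro hi
    have hi' : i < L := hi
    rw [Nat.mul_succ]
    refine (ih (by omega)).trans ?_
    have h1 := Gen.family (n := n) (c := 2 * Fintype.card A)
      (F := fun g => ∃ v : A, g = fun x => reach (fun p => x (e p)) a0 i v)
      (G := fun (v : A) g => g = fun x => decide (∃ u ∈ (univ : Finset A),
        reach (fun p => x (e p)) a0 i u = true ∧ x (e (⟨i, hi'⟩, u, v)) = true))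
      univ (fun v _ => Gen.anyAnd univ (fun u x => reach (fun p => x (e p)) a0 i u)
        (fun u x => x (e (⟨i, hi'⟩, u, v))) (fun u _ => ⟨u, rfl⟩) (fun u _ => ⟨_, rfl⟩))
    refine h1.mono (le_of_eq (by rw [card_univ])) (fun f hf => Or.inr hf) ?_
    rintro g ⟨v, rfl⟩
    refine ⟨v, mem_univ _, ?_⟩
    funext x
    exact reach_succ _ _ _ hi'

end Pool.Agent.T9h97.Fork
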