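import Pool.Agent.T9h97.Fork.Amp

/-!
# Closure properties of monotone formulas
-/

set_option autoImplicit false

namespace Pool.Agent.T9h97.Fork

open Finset
open scoped Classical

variable {E E' : Type}

lemma MF.mono {d d' : ℕ} {f : (E → Bool) → Bool} (h : MF d f) (hd : d ≤ d') : MF d' f := by
  induction h generalizing d' with
  | var _ e => exact MF.var _ e
  | const _ b => exact MF.const _ b
  | and _ _ ih1 ih2 =>
    obtain ⟨k, rfl⟩ : ∃ k, d' = k + 1 := ⟨d' - 1, by omega⟩
    exact MF.and (ih1 (by omega)) (ih2 (by omega))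
  | or _ _ ih1 ih2 =>
    obtain ⟨k, rfl⟩ : ∃ k, d' = k + 1 := ⟨d' - 1, by omega⟩
    exact MF.or (ih1 (by omega)) (ih2 (by omega))

/-- replacing the variables by variables and constants -/
lemma MF.subst {d : ℕ} {f : (E → Bool) → Bool} (h : MF d f) (g : (E' → Bool) → (E → Bool))
    (hg : ∀ e, (∃ e', ∀ y, g y e = y e') ∨ ∃ b, ∀ y, g y e = b) :
    MF d (fun y => f (g y)) := by
  induction h with
  | var _ e =>
    rcases hg e with ⟨e', he⟩ | ⟨b, hb⟩
    · have : (fun y => g y e) = fun y => y e' := funext he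
      show MF _ (fun y => g y e)
      rw [this]
      exact MF.var _ e'
    · have : (fun y => g y e) = fun _ => b := funext hb
      show MF _ (fun y => g y e)
      rw [this]
      exact MF.const _ b
  | const _ b => exact MF.const _ b
  | and _ _ ih1 ih2 => exact MF.and ih1 ih2
  | or _ _ ih1 ih2 => exact MF.or ih1 ih2

lemma MF.le {d : ℕ} {f : (E → Bool) → Bool} (h : MF d f) {y y' : E → Bool}
    (hy : ∀ e, y e = true → y' e = true) : f y = true → f y' = true := by
  induction h with
  | var _ e => exact hy e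
  | const _ b => exact id
  | and _ _ ih1 ih2 =>
    intro h
    simp only [Bool.and_eq_true] at h ⊢
    exact ⟨ih1 h.1, ih2 h.2⟩
  | or _ _ ih1 ih2 =>
    intro h
    simp only [Bool.or_eq_true] at h ⊢
    exact h.imp ih1 ih2

/-- the disjunction of at most `2 ^ a` formulas -/
lemma MF.any {d : ℕ} {ι : Type} (F : ι → (E → Bool) → Bool) : ∀ (a : ℕ) (s : Finset ι),
    s.card ≤ 2 ^ a → (∀ i ∈ s, MF d (F i)) → MF (d + a) (fun y => decide (∃ i ∈ s, F i y = true))
    := by
  intro a
  induction a with
  | zero =>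
    intro s hs hF
    rcases Nat.le_one_iff_eq_zero_or_eq_one.1 hs with h | h
    · rw [card_eq_zero] at h
      subst h
      have : (fun y : E → Bool => decide (∃ i ∈ (∅ : Finset ι), F i y = true)) = fun _ => false := by
        funext y; simp
      rw [this]
      exact MF.const _ _
    · obtain ⟨i, rfl⟩ := card_eq_one.1 h
      have : (fun y : E → Bool => decide (∃ j ∈ ({i} : Finset ι), F j y = true)) = F i := by
        funext y; simp
      rw [this]
      exact hF i (mem_singleton_self i)
  | succ a ih =>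
    intro s hs hF
    obtain ⟨s1, hs1, hc⟩ := Finset.exists_subset_card_eq (s := s) (n := min s.card (2 ^ a))
      (min_le_left _ _)
    have h1 : s1.card ≤ 2 ^ a := by omega
    have h2 : (s \ s1).card ≤ 2 ^ a := by
      rw [card_sdiff_of_subset hs1]
      rw [pow_succ] at hs
      omega
    have e : (fun y => decide (∃ i ∈ s, F i y = true)) = fun y =>
        decide (∃ i ∈ s1, F i y = true) || decide (∃ i ∈ s \ s1, F i y = true) := by
      funext y
      rw [Bool.eq_iff_iff]
      simp only [decide_eq_true_eq, Bool.or_eq_true]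
      constructor
      · rintro ⟨i, hi, h⟩
        by_cases hi1 : i ∈ s1
        · exact Or.inl ⟨i, hi1, h⟩
        · exact Or.inr ⟨i, mem_sdiff.2 ⟨hi, hi1⟩, h⟩
      · rintro (⟨i, hi, h⟩ | ⟨i, hi, h⟩)
        · exact ⟨i, hs1 hi, h⟩
        · exact ⟨i, (mem_sdiff.1 hi).1, h⟩
    rw [e]
    exact MF.or (ih s1 h1 fun i hi => hF i (hs1 hi))
      (ih (s \ s1) h2 fun i hi => hF i (mem_sdiff.1 hi).1)

end Pool.Agent.T9h97.Fork
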