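import Pool.Agent.T9h97.Fork.Adv

/-!
# Disjunctions and conjunctions of many circuits of small depth
-/

set_option autoImplicit false

namespace Pool.Agent.T9h97.Fork

open Finset Pool.Agent.H540R2
open scoped Classical

/-- Monotone formulas of small depth do not separate even a dense set of paths from the
corresponding cuts. -/
theorem sparse {A : Type} [Fintype A] {L k b d : ℕ} (hb : 1 ≤ b)
    (hw : 2 ^ k * 2 ^ (2 * b + 4) ≤ Fintype.card A)
    (hd : d ≤ k * (b - 1)) (hL : L = 2 ^ k + 1) (a a' a'' : A) (ha : a' ≠ a'')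
    (f : (Fin L × A × A → Bool) → Bool) (hf : MF d f) (S : Finset (Fin (2 ^ k) → A))
    (hacc : ∀ x ∈ S, f (pth (wrd a a' x)) = true)
    (hrej : ∀ x ∈ S, f (cut (wrd a a'' x)) = false) :
    S.card * 2 ^ (b + 1) ≤ Fintype.card (Fin (2 ^ k) → A) := by
  by_contra hcon
  rw [not_le] at hcon
  refine no_cfg hb k hw d 1 f hf hd (by omega) ⟨⟨S, wrd a a', wrd a a'', ?_, hacc, hrej,
    ?_, ?_, ?_, ?_⟩⟩
  · have h1 : Fintype.card (Fin (2 ^ k) → A) = Fintype.card A ^ 2 ^ k := by simp
    rw [← h1]
    exact hcon.le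
  · intro i hi x _ y _
    have : i = 0 := by omega
    subst this
    rw [wrd_zero, wrd_zero]
  · intro x _ j
    exact wrd_mid a a' x j
  · intro x _ j
    exact wrd_mid a a'' x j
  · intro i h1 _ x _ y _
    have h2 : 2 ^ k < i := by omega
    rw [wrd_last _ _ _ h2, wrd_last _ _ _ h2]
    exact ha

/-- counting vectors with entries in sparse sets -/
lemma count {W U : Type} [Fintype W] [Fintype U] {M c : ℕ} (S : U → Fin M → Finset W)
    (hS : ∀ u β, (S u β).card * 2 ^ c ≤ Fintype.card W)
    (hcov : ∀ x : Fin M → W, ∃ u, ∀ β, x β ∈ S u β) (hW : 0 < Fintype.card W) :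
    2 ^ (c * M) ≤ Fintype.card U := by
  have h1 : Fintype.card W ^ M ≤ ∑ u : U, ∏ β : Fin M, (S u β).card := by
    calc Fintype.card W ^ M = (univ : Finset (Fin M → W)).card := by simp
      _ ≤ ((univ : Finset U).biUnion fun u => Fintype.piFinset (S u)).card := by
          apply card_le_card
          intro x _
          obtain ⟨u, hu⟩ := hcov x
          rw [mem_biUnion]
          exact ⟨u, mem_univ _, Fintype.mem_piFinset.2 hu⟩
      _ ≤ ∑ u : U, (Fintype.piFinset (S u)).card := card_biUnion_le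
      _ = _ := by
          refine sum_congr rfl fun u _ => ?_
          rw [Fintype.card_piFinset]
  have h2 : ∀ u : U, (∏ β : Fin M, (S u β).card) * 2 ^ (c * M) ≤ Fintype.card W ^ M := by
    intro u
    calc (∏ β : Fin M, (S u β).card) * 2 ^ (c * M)
        = ∏ β : Fin M, ((S u β).card * 2 ^ c) := by
          rw [prod_mul_distrib, prod_const, card_univ, Fintype.card_fin, pow_mul]
      _ ≤ ∏ _β : Fin M, Fintype.card W := prod_le_prod' fun β _ => hS u β
      _ = _ := by simp
  have h3 : Fintype.card W ^ M * 2 ^ (c * M) ≤ Fintype.card U * Fintype.card W ^ M := by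
    calc Fintype.card W ^ M * 2 ^ (c * M)
        ≤ (∑ u : U, ∏ β : Fin M, (S u β).card) * 2 ^ (c * M) := Nat.mul_le_mul_right _ h1
      _ = ∑ u : U, (∏ β : Fin M, (S u β).card) * 2 ^ (c * M) := sum_mul _ _ _
      _ ≤ ∑ _u : U, Fintype.card W ^ M := sum_le_sum fun u _ => h2 u
      _ = _ := by rw [sum_const, card_univ, smul_eq_mul]
  rw [mul_comm] at h3
  exact Nat.le_of_mul_le_mul_right h3 (by positivity)

variable {n : ℕ} {A : Type} [Fintype A] {M L k b d : ℕ}

lemma asm_update {E : Type} {emb : Fin M → E → Fin n}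
    (hinj : ∀ β e β' e', emb β e = emb β' e' → β = β' ∧ e = e') (w : Fin M → E → Bool)
    (β : Fin M) (v : Fin n) : (∃ e, ∀ y, asm emb (Function.update w β y) v = y e) ∨
      ∃ b, ∀ y, asm emb (Function.update w β y) v = b := by
  by_cases hv : ∃ e, emb β e = v
  · obtain ⟨e, rfl⟩ := hv
    left
    refine ⟨e, fun y => ?_⟩
    rw [Bool.eq_iff_iff]
    simp only [asm, decide_eq_true_eq]
    constructor
    · rintro ⟨γ, e', h1, h2⟩
      obtain ⟨rfl, rfl⟩ := hinj _ _ _ _ h1
      rwa [Function.update_self] at h2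
    · intro h1
      exact ⟨β, e, rfl, by rwa [Function.update_self]⟩
  · right
    refine ⟨decide (∃ γ e, emb γ e = v ∧ w γ e = true), fun y => ?_⟩
    rw [Bool.eq_iff_iff]
    simp only [asm, decide_eq_true_eq]
    constructor
    · rintro ⟨γ, e', h1, h2⟩
      have hγ : γ ≠ β := by
        rintro rfl
        exact hv ⟨e', h1⟩
      rw [Function.update_of_ne hγ] at h2
      exact ⟨γ, e', h1, h2⟩
    · rintro ⟨γ, e', h1, h2⟩
      have hγ : γ ≠ β := by
        rintro rfl
        exact hv ⟨e', h1⟩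
      exact ⟨γ, e', h1, by rwa [Function.update_of_ne hγ]⟩

lemma asm_le {E : Type} (emb : Fin M → E → Fin n) {w w' : Fin M → E → Bool}
    (hw : ∀ β e, w β e = true → w' β e = true) (v : Fin n) :
    asm emb w v = true → asm emb w' v = true := by
  simp only [asm, decide_eq_true_eq]
  rintro ⟨β, e, h1, h2⟩
  exact ⟨β, e, h1, hw β e h2⟩

/-- A conjunction of many formulas that computes a disjunction of blocks. -/
theorem conj_many (hb : 1 ≤ b) (hw : 2 ^ k * 2 ^ (2 * b + 4) ≤ Fintype.card A)
    (hd : d ≤ k * (b - 1)) (hL : L = 2 ^ k + 1) (a0 a1 : A) (ha : a1 ≠ a0)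
    (emb : Fin M → Fin L × A × A → Fin n)
    (hinj : ∀ β e β' e', emb β e = emb β' e' → β = β' ∧ e = e')
    {U : Type} [Fintype U] (D : U → (Fin n → Bool) → Bool) (hD : ∀ u, MF d (D u))
    (hneg : ∀ w, (∀ γ, ∃ x : Fin (2 ^ k) → A, w γ = cut (wrd a0 a0 x)) →
      ∃ u, D u (asm emb w) = false)
    (hpos : ∀ w β (x : Fin (2 ^ k) → A), w β = pth (wrd a0 a1 x) →
      ∀ u, D u (asm emb w) = true) :
    2 ^ ((b + 1) * M) ≤ Fintype.card U := by
  refine count (W := Fin (2 ^ k) → A) (fun u β => univ.filter fun x : Fin (2 ^ k) → A =>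
    D u (asm emb (Function.update (fun _ _ => false) β (cut (wrd a0 a0 x)))) = false) ?_ ?_ ?_
  · intro u β
    refine sparse hb hw hd hL a0 a1 a0 ha
      (fun y => D u (asm emb (Function.update (fun _ _ => false) β y)))
      ((hD u).subst _ (asm_update hinj _ β)) _ ?_ ?_
    · intro x _
      exact hpos _ β x (Function.update_self _ _ _) u
    · intro x hx
      exact (mem_filter.1 hx).2
  · intro x
    obtain ⟨u, hu⟩ := hneg (fun γ => cut (wrd a0 a0 (x γ))) (fun γ => ⟨x γ, rfl⟩)
    refine ⟨u, fun β => mem_filter.2 ⟨mem_univ _, ?_⟩⟩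
    rw [Bool.eq_false_iff]
    intro h1
    have h2 := (hD u).le (asm_le emb (w' := fun γ => cut (wrd a0 a0 (x γ))) (by
      intro γ e he
      by_cases hγ : γ = β
      · subst hγ
        rwa [Function.update_self] at he
      · rw [Function.update_of_ne hγ] at he
        exact absurd he (by simp))) h1
    rw [hu] at h2
    exact absurd h2 (by simp)
  · have : 0 < Fintype.card A := lt_of_lt_of_le (by positivity) hw
    rw [Fintype.card_fun]
    positivity

/-- A disjunction of many formulas that computes a conjunction of blocks. -/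
theorem disj_many (hb : 1 ≤ b) (hw : 2 ^ k * 2 ^ (2 * b + 4) ≤ Fintype.card A)
    (hd : d ≤ k * (b - 1)) (hL : L = 2 ^ k + 1) (a0 a1 : A) (ha : a1 ≠ a0)
    (emb : Fin M → Fin L × A × A → Fin n)
    (hinj : ∀ β e β' e', emb β e = emb β' e' → β = β' ∧ e = e')
    {U : Type} [Fintype U] (D : U → (Fin n → Bool) → Bool) (hD : ∀ u, MF d (D u))
    (hpos : ∀ w, (∀ γ, ∃ x : Fin (2 ^ k) → A, w γ = pth (wrd a0 a1 x)) →
      ∃ u, D u (asm emb w) = true)
    (hneg : ∀ w β (x : Fin (2 ^ k) → A), w β = cut (wrd a0 a0 x) →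
      ∀ u, D u (asm emb w) = false) :
    2 ^ ((b + 1) * M) ≤ Fintype.card U := by
  refine count (W := Fin (2 ^ k) → A) (fun u β => univ.filter fun x : Fin (2 ^ k) → A =>
    D u (asm emb (Function.update (fun _ _ => true) β (pth (wrd a0 a1 x)))) = true) ?_ ?_ ?_
  · intro u β
    refine sparse hb hw hd hL a0 a1 a0 ha
      (fun y => D u (asm emb (Function.update (fun _ _ => true) β y)))
      ((hD u).subst _ (asm_update hinj _ β)) _ ?_ ?_
    · intro x hx
      exact (mem_filter.1 hx).2
    · intro x _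
      exact hneg _ β x (Function.update_self _ _ _) u
  · intro x
    obtain ⟨u, hu⟩ := hpos (fun γ => pth (wrd a0 a1 (x γ))) (fun γ => ⟨x γ, rfl⟩)
    refine ⟨u, fun β => mem_filter.2 ⟨mem_univ _, ?_⟩⟩
    refine (hD u).le (asm_le emb ?_) hu
    intro γ e he
    by_cases hγ : γ = β
    · subst hγ
      rw [Function.update_self]
      exact he
    · rw [Function.update_of_ne hγ]
  · have : 0 < Fintype.card A := lt_of_lt_of_le (by positivity) hw
    rw [Fintype.card_fun]
    positivity

end Pool.Agent.T9h97.Fork
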